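import Pool.Agent.Helper11.LCY.Stmts
import Pool.Agent.Helper98.LCY.LocC
import Pool.Agent.Helper62.LCY.N4

/-! Row SW of MP_f7e214_ag: exchange of two consecutive points. -/

open Polynomial

namespace LCY.H36

noncomputable section

open LCY

variable {L : Type} [Field L] [Algebra ℂ L]

/-- The order valuation is centred at its point. -/
theorem centred_ord (P : Coord L) : Centred P.loc P.ord :=
  H98.centred_iff.2 (H62.cen_ord P)

/-- A point infinitely near to a point of a surface is not a point of the surface. -/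
theorem not_next_of_mem {S : Coord L} {k : ℕ} {R : Fin k → Subalgebra ℂ L}
    (hv : ∀ i : Fin k, R i ∈ surf S R i) {j : ℕ} {p q : Subalgebra ℂ L} (hp : p ∈ surf S R j)
    (hq : q ∈ surf S R j) (hne : p ≠ q) : ¬ Next q p := by
  intro h
  obtain ⟨P, rfl⟩ := H98.surf_coord hp
  obtain ⟨Q, rfl⟩ := H98.surf_coord hq
  exact hne (H98.sep_surf hv j _ hp _ hq P.ord (centred_ord P)
    (H98.nn_of_next h (centred_ord P).1))

/-- Blowing up two different points of a surface in either order. -/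
theorem blow_blow {X : Set (Subalgebra ℂ L)} {p q : Subalgebra ℂ L} (hpq : ¬ Next p q)
    (hqp : ¬ Next q p) : blow (blow X p) q = blow (blow X q) p := by
  ext R
  simp only [blow, Set.mem_union, Set.mem_sdiff, Set.mem_ofPred_eq, Set.mem_singleton_iff]
  constructor
  · rintro (⟨⟨h1, h2⟩ | h1, h3⟩ | h1)
    · exact Or.inl ⟨Or.inl ⟨h1, h3⟩, h2⟩
    · exact Or.inr h1
    · exact Or.inl ⟨Or.inr h1, fun h => hqp (h ▸ h1)⟩
  · rintro (⟨⟨h1, h2⟩ | h1, h3⟩ | h1)
    · exact Or.inl ⟨Or.inl ⟨h1, h3⟩, h2⟩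
    · exact Or.inr h1
    · exact Or.inl ⟨Or.inr h1, fun h => hpq (h ▸ h1)⟩

theorem sw : ST_SW := by
  intro L _ _ k T i hi hN
  have hi' : i < k := Nat.lt_of_succ_lt hi
  set p := T.R ⟨i, hi'⟩ with hp
  set q := T.R ⟨i + 1, hi⟩ with hq
  have hpX : p ∈ surf T.S T.R i := T.valid ⟨i, hi'⟩
  have hqX' : q ∈ surf T.S T.R (i + 1) := T.valid ⟨i + 1, hi⟩
  rw [surf, dif_pos hi'] at hqX'
  have hqX : q ∈ surf T.S T.R i ∧ q ≠ p := by
    rcases hqX' with h | h
    · exact ⟨h.1, h.2⟩
    · exact absurd h hN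
  have hqp : ¬ Next q p := not_next_of_mem T.valid hpX hqX.1 (Ne.symm hqX.2)
  set e : Equiv.Perm (Fin k) := Equiv.swap ⟨i, hi'⟩ ⟨i + 1, hi⟩ with he
  set R' : Fin k → Subalgebra ℂ L := T.R ∘ e with hR'
  have hRi : R' ⟨i, hi'⟩ = q := by
    rw [hR', Function.comp_apply, he, Equiv.swap_apply_left]
  have hRi1 : R' ⟨i + 1, hi⟩ = p := by
    rw [hR', Function.comp_apply, he, Equiv.swap_apply_right]
  have hRo : ∀ j : Fin k, (j : ℕ) ≠ i → (j : ℕ) ≠ i + 1 → R' j = T.R j := by
    intro j h1 h2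
    rw [hR', Function.comp_apply, he, Equiv.swap_apply_of_ne_of_ne]
    · intro h; exact h1 (by rw [h])
    · intro h; exact h2 (by rw [h])
  have hlow : ∀ j, j ≤ i → surf T.S R' j = surf T.S T.R j := by
    intro j hj
    apply surf_congr T.S R' T.R j (hj.trans hi'.le) (hj.trans hi'.le)
    intro m h1 h2 hm
    exact hRo ⟨m, h1⟩ (by dsimp only; omega) (by dsimp only; omega)
  have hmid : surf T.S R' (i + 1) = blow (surf T.S T.R i) q := by
    rw [surf, dif_pos hi', hlow i le_rfl, hRi]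
  have htop2 : surf T.S R' (i + 2) = surf T.S T.R (i + 2) := by
    have h1 : surf T.S R' (i + 2) = blow (surf T.S R' (i + 1)) (R' ⟨i + 1, hi⟩) := by
      conv_lhs => rw [surf]
      rw [dif_pos hi]
    have h2 : surf T.S T.R (i + 2) = blow (surf T.S T.R (i + 1)) (T.R ⟨i + 1, hi⟩) := by
      conv_lhs => rw [surf]
      rw [dif_pos hi]
    have h3 : surf T.S T.R (i + 1) = blow (surf T.S T.R i) p := by
      conv_lhs => rw [surf]
      rw [dif_pos hi']
    rw [h1, h2, h3, hmid, hRi1, ← hq]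
    exact blow_blow hqp hN
  have htop : ∀ j, surf T.S R' (i + 2 + j) = surf T.S T.R (i + 2 + j) := by
    intro j
    induction j with
    | zero => exact htop2
    | succ j ih =>
      by_cases hj : i + 2 + j < k
      · rw [← add_assoc, surf, dif_pos hj, ih]
        conv_rhs => rw [surf]
        rw [dif_pos hj, hRo ⟨i + 2 + j, hj⟩ (by dsimp only; omega) (by dsimp only; omega)]
      · rw [← add_assoc, surf, dif_neg hj, ih]
        conv_rhs => rw [surf]
        rw [dif_neg hj]
  refine ⟨⟨T.S, R', ?_⟩, rfl, ?_, rfl⟩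
  · intro j
    rcases lt_trichotomy (j : ℕ) i with h | h | h
    · rw [hRo j (by omega) (by omega), hlow _ h.le]
      exact T.valid j
    · have hj : j = ⟨i, hi'⟩ := Fin.ext h
      rw [hj, hRi]
      change q ∈ surf T.S R' i
      rw [hlow i le_rfl]
      exact hqX.1
    · by_cases h2 : (j : ℕ) = i + 1
      · have hj : j = ⟨i + 1, hi⟩ := Fin.ext h2
        rw [hj, hRi1]
        change p ∈ surf T.S R' (i + 1)
        rw [hmid]
        exact Or.inl ⟨hpX, Ne.symm hqX.2⟩
      · rw [hRo j (by omega) h2]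
        obtain ⟨d, hd⟩ : ∃ d, (j : ℕ) = i + 2 + d := ⟨j - (i + 2), by omega⟩
        rw [hd, htop, ← hd]
        exact T.valid j
  · change surf T.S R' k = surf T.S T.R k
    obtain ⟨d, hd⟩ : ∃ d, k = i + 2 + d := ⟨k - (i + 2), by omega⟩
    have := htop d
    rw [← hd] at this
    exact this

end

end LCY.H36
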