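import Pool.Agent.Helper26.LC.FamStmts2

/-! Values of rational functions at points, homomorphisms from coordinate pairs
(MP_f7e214_ag, block FAMILIES). -/

open Polynomial

namespace LCY.H36

noncomputable section

open LCY

variable {K : Type} [Field K]

theorem valAt_add {c : K} {r s : RatFunc K} {ξ η : K} (hr : ValAt c r ξ) (hs : ValAt c s η) :
    ValAt c (r + s) (ξ + η) := by
  obtain ⟨a, b, hb, hab, rfl⟩ := hr
  obtain ⟨a', b', hb', hab', rfl⟩ := hs
  have hb0 : (algebraMap K[X] (RatFunc K)) b ≠ 0 := by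
    intro h
    have h1 : b = 0 := by simpa using h
    exact hb (by rw [h1, eval_zero])
  have hb0' : (algebraMap K[X] (RatFunc K)) b' ≠ 0 := by
    intro h
    have h1 : b' = 0 := by simpa using h
    exact hb' (by rw [h1, eval_zero])
  refine ⟨a * b' + b * a', b * b', ?_, ?_, ?_⟩
  · rw [eval_mul]
    exact mul_ne_zero hb hb'
  · rw [eval_add, eval_mul, eval_mul, eval_mul, hab, hab']
    ring
  · rw [div_add_div _ _ hb0 hb0', map_add, map_mul, map_mul, map_mul]

theorem valAt_mul {c : K} {r s : RatFunc K} {ξ η : K} (hr : ValAt c r ξ) (hs : ValAt c s η) :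
    ValAt c (r * s) (ξ * η) := by
  obtain ⟨a, b, hb, hab, rfl⟩ := hr
  obtain ⟨a', b', hb', hab', rfl⟩ := hs
  refine ⟨a * a', b * b', ?_, ?_, ?_⟩
  · rw [eval_mul]
    exact mul_ne_zero hb hb'
  · rw [eval_mul, eval_mul, hab, hab']
    ring
  · rw [div_mul_div_comm, map_mul, map_mul]

theorem valAt_C (c a : K) : ValAt c (RatFunc.C a) a :=
  ⟨C a, 1, by simp, by simp, by simp⟩

theorem valAt_poly (c : K) (p : K[X]) : ValAt c (algebraMap K[X] (RatFunc K) p) (p.eval c) :=
  ⟨p, 1, by simp, by simp, by simp⟩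

theorem valAt_div {c : K} (p q : K[X]) (hq : q.eval c ≠ 0) :
    ValAt c (algebraMap K[X] (RatFunc K) p / algebraMap K[X] (RatFunc K) q)
      (p.eval c / q.eval c) :=
  ⟨p, q, hq, by rw [div_mul_cancel₀ _ hq], rfl⟩

theorem valAt_zero_eq {c ξ : K} (h : ValAt c 0 ξ) : ξ = 0 := by
  obtain ⟨a, b, hb, hab, h0⟩ := h
  have hb0 : (algebraMap K[X] (RatFunc K)) b ≠ 0 := by
    intro h
    have h1 : b = 0 := by simpa using h
    exact hb (by rw [h1, eval_zero])
  have h1 : (algebraMap K[X] (RatFunc K)) a = 0 := by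
    rcases div_eq_zero_iff.1 h0.symm with h | h
    · exact h
    · exact absurd h hb0
  have h2 : a = 0 := by simpa using h1
  rw [h2, eval_zero] at hab
  rcases mul_eq_zero.1 hab.symm with h | h
  · exact h
  · exact absurd h hb

variable [Algebra ℂ K]

theorem ratC_algebraMap (z : ℂ) :
    (RatFunc.C (algebraMap ℂ K z) : RatFunc K) = algebraMap ℂ (RatFunc K) z := by
  rw [IsScalarTower.algebraMap_apply ℂ K (RatFunc K)]
  rfl

theorem valAt_const (c : K) (z : ℂ) :
    ValAt c (algebraMap ℂ (RatFunc K) z) (algebraMap ℂ K z) := by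
  rw [← ratC_algebraMap]
  exact valAt_C c _

theorem valAt_pow {c : K} {r : RatFunc K} {ξ : K} (hr : ValAt c r ξ) (n : ℕ) :
    ValAt c (r ^ n) (ξ ^ n) := by
  induction n with
  | zero =>
    rw [pow_zero, pow_zero]
    simpa using valAt_C c 1
  | succ n ih =>
    rw [pow_succ, pow_succ]
    exact valAt_mul ih hr

theorem valAt_aeval {c : K} {r : RatFunc K} {ξ : K} (hr : ValAt c r ξ) (p : ℂ[X]) :
    ValAt c (aeval r p) (aeval ξ p) := by
  induction p using Polynomial.induction_on' with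
  | add p q ihp ihq =>
    rw [map_add, map_add]
    exact valAt_add ihp ihq
  | monomial n a =>
    rw [aeval_monomial, aeval_monomial]
    exact valAt_mul (valAt_const c a) (valAt_pow hr n)

theorem valAt_ev {c : K} {r s : RatFunc K} {ξ η : K} (hr : ValAt c r ξ) (hs : ValAt c s η)
    (f : ℂ[X][X]) : ValAt c (ev r s f) (ev ξ η f) := by
  induction f using Polynomial.induction_on' with
  | add p q ihp ihq =>
    rw [map_add, map_add]
    exact valAt_add ihp ihq
  | monomial n a =>
    rw [ev_apply, ev_apply, eval₂_monomial, eval₂_monomial]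
    exact valAt_mul (valAt_aeval hr a) (valAt_pow hs n)

/-- A homomorphism from the field of a coordinate pair. -/
theorem exists_coord_hom {L M : Type} [Field L] [Algebra ℂ L] [Field M] [Algebra ℂ M]
    (Q : Coord L) (a b : M) (h : ∀ f : ℂ[X][X], ev a b f = 0 → f = 0) :
    ∃ i : L →ₐ[ℂ] M, i Q.x = a ∧ i Q.y = b ∧ ∀ f, i (ev Q.x Q.y f) = ev a b f := by
  let _ : Algebra ℂ[X][X] L := (ev Q.x Q.y).toAlgebra
  have hinj : Function.Injective (algebraMap ℂ[X][X] L) := by
    rw [injective_iff_map_eq_zero]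
    exact Q.inj
  have hfrac : IsFractionRing ℂ[X][X] L := by
    constructor
    constructor
    · intro s
      apply IsUnit.mk0
      exact Q.ne (nonZeroDivisors.ne_zero s.2)
    · intro z
      obtain ⟨f, g, hg, hz⟩ := Q.surj z
      refine ⟨⟨f, ⟨g, mem_nonZeroDivisors_of_ne_zero hg⟩⟩, ?_⟩
      change z * ev Q.x Q.y g = ev Q.x Q.y f
      rw [hz, div_mul_cancel₀ _ (Q.ne hg)]
    · intro x y hxy
      exact ⟨1, by rw [hinj hxy]⟩
  have hinj2 : Function.Injective (ev a b) := by
    rw [injective_iff_map_eq_zero]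
    exact h
  let i0 : L →+* M := IsFractionRing.lift hinj2
  have hi0 : ∀ f, i0 (ev Q.x Q.y f) = ev a b f := fun f => IsFractionRing.lift_algebraMap hinj2 f
  refine ⟨{ i0 with commutes' := fun c => ?_ }, ?_, ?_, ?_⟩
  · change i0 (algebraMap ℂ L c) = _
    rw [← ev_CC Q.x Q.y, hi0, ev_CC]
  · change i0 Q.x = a
    rw [← ev_CX Q.x Q.y, hi0, ev_CX]
  · change i0 Q.y = b
    rw [← ev_X Q.x Q.y, hi0, ev_X]
  · exact hi0

theorem const_of_isAlgebraic {η : K} (hη : IsAlgebraic ℂ η) : ∃ a : ℂ, η = algebraMap ℂ K a := by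
  have h1 := hη.isIntegral
  have h2 : (minpoly ℂ η).degree = 1 :=
    IsAlgClosed.degree_eq_one_of_irreducible ℂ (minpoly.irreducible h1)
  obtain ⟨a, ha⟩ := minpoly.mem_range_of_degree_eq_one ℂ η h2
  exact ⟨a, ha.symm⟩

/-- Over an algebraically closed field the places away from zero are the points. -/
theorem regAtT_point [IsAlgClosed K] (P : K[X]) (hP : Irreducible P) (hPX : ¬ P ∣ X) :
    ∃ c : K, c ≠ 0 ∧ ∀ r : RatFunc K, RegAtT P r ↔ RegAtT (X - C c) r := by
  have hd : P.degree = 1 := IsAlgClosed.degree_eq_one_of_irreducible K hP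
  obtain ⟨c, hc⟩ := IsAlgClosed.exists_root P (by rw [hd]; exact one_ne_zero)
  have hdvd : (X - C c) ∣ P := dvd_iff_isRoot.2 hc
  have hass : Associated (X - C c) P :=
    (irreducible_X_sub_C c).associated_of_dvd hP hdvd
  refine ⟨c, ?_, ?_⟩
  · rintro rfl
    rw [C_0, sub_zero] at hass
    exact hPX hass.symm.dvd
  · intro r
    constructor
    · rintro ⟨a, b, hb, hr⟩
      exact ⟨a, b, fun h => hb (hass.symm.dvd.trans h), hr⟩
    · rintro ⟨a, b, hb, hr⟩
      exact ⟨a, b, fun h => hb (hass.dvd.trans h), hr⟩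

end

end LCY.H36
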