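import Pool.Agent.Helper36.LCY.ClSum
import Pool.Agent.Helper81.LCY.Adic
import Pool.Agent.Helper97.LCY.SBase

/-! Two structures on the same surface: the change of the classes is determined by the line at
infinity and the exceptional curves (MP_f7e214_ag). -/

open Polynomial Pool.Agent.Helper82.LCY

namespace LCY.H36

noncomputable section

open LCY

variable {L : Type} [Field L] [Algebra ℂ L]

/-- The change of classes between two structures on the same surface, from its values at the line
at infinity and the exceptional curves. -/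
theorem cl_ext (hB1 : ST_B1) (h17 : ST_A17) {k k' : ℕ} (T : PStr L k) (T' : PStr L k')
    (hX : T'.X = T.X) (φ : Cl ℤ (Fin k) →+ Cl ℤ (Fin k'))
    (h4 : ∀ v, (IsInf T.S v ∨ ∃ i, IsOrd (T.R i) v) → T'.cl v = φ (T.cl v)) :
    ∀ v, T.Cur v → T'.cl v = φ (T.cl v) := by
  intro v hv
  rcases (h17 L k T v).1 hv with (h | ⟨g, hg⟩) | h
  · exact h4 v (Or.inl h)
  swap
  · exact h4 v (Or.inr h)
  have hCC : T'.C = T.C := by
    unfold PStr.C PStr.Cur
    rw [hX]
  have hf0 : ev T.S.x T.S.y g ≠ 0 := T.S.ne hg.1.ne_zero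
  set f := ev T.S.x T.S.y g with hf
  obtain ⟨hD, hs⟩ := hB1 L k T f hf0
  obtain ⟨-, hs'⟩ := hB1 L k' T' f hf0
  obtain ⟨s, h1, h2, -⟩ := exists_supp T hD hD
  rw [clD_eq_sum T _ s h1 h2] at hs
  rw [clD_eq_sum T' _ s (fun w hw => by rw [hCC]; exact h1 w hw)
    (fun w hw h => h2 w (by rwa [hCC] at hw) h)] at hs'
  have hsame := H97.nrm_same v
  have hv0 : (H97.nrm v) ∈ T.C := ⟨H97.nrm_zero v, H97.cur_congr hsame hv⟩
  have hvf : (H97.nrm v).v f = 1 := by
    rw [← hsame f hf0, hf]
    exact H81.IsAdic.self hg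
  have hvs : H97.nrm v ∈ s := h2 _ hv0 (by rw [hvf]; exact one_ne_zero)
  have hoth : ∀ w ∈ s, w ≠ H97.nrm v → w.v f • (T'.cl w - φ (T.cl w)) = 0 := by
    intro w hw hne
    by_cases hwf : w.v f = 0
    · rw [hwf, zero_smul]
    obtain ⟨hw0, hwC⟩ := h1 w hw
    have h5 : IsInf T.S w ∨ ∃ i, IsOrd (T.R i) w := by
      rcases (h17 L k T w).1 hwC with (h | ⟨g', hg'⟩) | h
      · exact Or.inl h
      · exfalso
        apply hne
        have hdvd : g' ∣ g := by
          by_contra hn
          exact hwf (H81.IsAdic.zero_of hg' hn)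
        have hass : Associated g' g := hg'.1.associated_of_dvd hg.1 hdvd
        have hgw : IsAdic T.S g w := H81.IsAdic.of_associated hg' hass
        exact H97.eq_of_same hw0 (H97.nrm_zero v)
          (H97.same_trans (H81.IsAdic.same hgw hg) hsame)
      · exact Or.inr h
    rw [h4 w h5, sub_self, smul_zero]
  have hsum : ∑ w ∈ s, w.v f • (T'.cl w - φ (T.cl w)) = 0 := by
    have e1 : ∀ w ∈ s, w.v f • (T'.cl w - φ (T.cl w)) =
        w.v f • T'.cl w - φ (w.v f • T.cl w) := by
      intro w _
      rw [smul_sub, map_zsmul]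
    rw [Finset.sum_congr rfl e1, Finset.sum_sub_distrib, hs', ← map_sum, hs, map_zero, sub_zero]
  rw [Finset.sum_eq_single_of_mem _ hvs hoth, hvf, one_smul, sub_eq_zero] at hsum
  rw [H97.cl_congr hsame T', H97.cl_congr hsame T]
  exact hsum

/-- The conclusion of the rows QA, QB, QC from the values on the line at infinity and the
exceptional curves. -/
theorem quadPair_of (hB1 : ST_B1) (h17 : ST_A17) (S S' : Coord L)
    (R R' : Fin 3 → Subalgebra ℂ L) (hv : ∀ i : Fin 3, R i ∈ surf S R i)
    (hv' : ∀ i : Fin 3, R' i ∈ surf S' R' i) (hX : surf S' R' 3 = surf S R 3)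
    (h4 : ∀ v, (IsInf S v ∨ ∃ i, IsOrd (R i) v) →
      deg S' v = 2 * deg S v - mul (R 0) v - mul (R 1) v - mul (R 2) v ∧
      mul (R' 0) v = deg S v - mul (R 1) v - mul (R 2) v ∧
      mul (R' 1) v = deg S v - mul (R 0) v - mul (R 2) v ∧
      mul (R' 2) v = deg S v - mul (R 0) v - mul (R 1) v) : QuadPair S S' R R' := by
  let T : PStr L 3 := ⟨S, R, hv⟩
  let T' : PStr L 3 := ⟨S', R', hv'⟩
  let φ : Cl ℤ (Fin 3) →+ Cl ℤ (Fin 3) :=
    { toFun := fun c => (2 * c.1 - c.2 0 - c.2 1 - c.2 2,
        fun i => if i = 0 then c.1 - c.2 1 - c.2 2 else if i = 1 then c.1 - c.2 0 - c.2 2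
          else c.1 - c.2 0 - c.2 1)
      map_zero' := by
        ext i
        · simp
        · fin_cases i <;> simp
      map_add' := by
        intro c d
        ext i
        · simp only [Prod.fst_add, Prod.snd_add, Pi.add_apply]
          ring
        · fin_cases i
          · simp only [Prod.fst_add, Prod.snd_add, Pi.add_apply]
            norm_num
            ring
          · simp only [Prod.fst_add, Prod.snd_add, Pi.add_apply]
            norm_num
            ring
          · simp only [Prod.fst_add, Prod.snd_add, Pi.add_apply]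
            norm_num
            ring }
  have hφ : ∀ v, (deg S' v = 2 * deg S v - mul (R 0) v - mul (R 1) v - mul (R 2) v ∧
      mul (R' 0) v = deg S v - mul (R 1) v - mul (R 2) v ∧
      mul (R' 1) v = deg S v - mul (R 0) v - mul (R 2) v ∧
      mul (R' 2) v = deg S v - mul (R 0) v - mul (R 1) v) ↔ T'.cl v = φ (T.cl v) := by
    intro v
    constructor
    · rintro ⟨a1, a2, a3, a4⟩
      refine Prod.ext a1 (funext fun i => ?_)
      fin_cases i
      · exact a2
      · exact a3
      · exact a4
    · intro h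
      refine ⟨congrArg Prod.fst h, ?_, ?_, ?_⟩
      · exact congrFun (congrArg Prod.snd h) 0
      · exact congrFun (congrArg Prod.snd h) 1
      · exact congrFun (congrArg Prod.snd h) 2
  refine ⟨hv', hX, fun v hvX => ?_⟩
  rw [hφ]
  exact cl_ext hB1 h17 T T' hX φ (fun w hw => (hφ w).1 (h4 w hw)) v hvX

end

end LCY.H36
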