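import Pool.Agent.Helper11.LCY.Stmts
import Pool.Agent.Helper48.LCY.Red

/-! Finite sums for classes of divisors (MP_f7e214_ag). -/

open Polynomial Pool.Agent.Helper82.LCY

namespace LCY.H36

noncomputable section

open LCY

variable {L : Type} [Field L] [Algebra ℂ L] {k : ℕ}

/-- The class of a divisor as a sum over a finite set containing its support. -/
theorem clD_eq_sum (T : PStr L k) (D : DVal L → ℤ) (s : Finset (DVal L))
    (hs : ∀ v ∈ s, v ∈ T.C) (hs' : ∀ v ∈ T.C, D v ≠ 0 → v ∈ s) :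
    T.clD D = ∑ v ∈ s, D v • T.cl v := by
  unfold PStr.clD
  apply finsum_mem_eq_sum_of_inter_support_eq
  ext v
  simp only [Set.mem_inter_iff, Function.mem_support, Finset.mem_coe]
  constructor
  · rintro ⟨h1, h2⟩
    refine ⟨hs' v h1 ?_, h2⟩
    intro h3
    exact h2 (by rw [h3, zero_smul])
  · rintro ⟨h1, h2⟩
    exact ⟨hs v h1, h2⟩

open Classical in
/-- A common finite set for two divisors. -/
theorem exists_supp (T : PStr L k) {D E : DVal L → ℤ} (hD : T.IsDiv D) (hE : T.IsDiv E) :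
    ∃ s : Finset (DVal L), (∀ v ∈ s, v ∈ T.C) ∧ (∀ v ∈ T.C, D v ≠ 0 → v ∈ s) ∧
      ∀ v ∈ T.C, E v ≠ 0 → v ∈ s := by
  refine ⟨Set.Finite.toFinset (s := {v | v ∈ T.C ∧ D v ≠ 0}) hD ∪
    Set.Finite.toFinset (s := {v | v ∈ T.C ∧ E v ≠ 0}) hE, ?_, ?_, ?_⟩
  · intro v hv
    rw [Finset.mem_union, Set.Finite.mem_toFinset, Set.Finite.mem_toFinset] at hv
    rcases hv with h | h
    · exact h.1
    · exact h.1
  · intro v hv h
    rw [Finset.mem_union, Set.Finite.mem_toFinset]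
    exact Or.inl ⟨hv, h⟩
  · intro v hv h
    rw [Finset.mem_union, Set.Finite.mem_toFinset, Set.Finite.mem_toFinset]
    exact Or.inr ⟨hv, h⟩

end

end LCY.H36
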