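import Pool.Agent.Helper36.LCY.ValAt

/-! Row CONE of MP_f7e214_ag: the family on the quadric cone. -/

open Polynomial

namespace LCY.H36

noncomputable section

open LCY

variable {K : Type} [Field K] [Algebra ℂ K]

/-- The relation used at constant points. -/
theorem trans_rel {t : K} (ht : Transcendental ℂ t) {p q e : ℂ}
    (h : t * algebraMap ℂ K p + t⁻¹ * algebraMap ℂ K q = algebraMap ℂ K e) : p = 0 ∧ q = 0 := by
  have ht0 : t ≠ 0 := fun h0 => ht (by rw [h0]; exact isAlgebraic_zero)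
  have h1 : aeval t (C p * X ^ 2 - C e * X + C q : ℂ[X]) = 0 := by
    rw [map_add, map_sub, map_mul, map_mul, map_pow, aeval_C, aeval_C, aeval_C, aeval_X, ← h]
    field_simp
    ring
  have h2 : (C p * X ^ 2 - C e * X + C q : ℂ[X]) = 0 := by
    by_contra hne
    exact ht ⟨_, hne, h1⟩
  constructor
  · have h3 := congrArg (fun r => r.coeff 2) h2
    simpa [coeff_X, coeff_C] using h3
  · have h3 := congrArg (fun r => r.coeff 0) h2
    simpa [coeff_X, coeff_C] using h3

omit [Algebra ℂ K] in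
/-- Parametrisation of the projective line by the roots of a binary quadratic form. -/
theorem quad_normal [IsAlgClosed K] [CharZero K] (a b c : K)
    (hne : ¬ (a = 0 ∧ b = 0 ∧ c = 0)) :
    ∃ A B C D : K, A * D - B * C ≠ 0 ∧ ∀ s : K, s ≠ 0 →
      a * (A + B * s) ^ 2 + b * (A + B * s) * (C + D * s) + c * (C + D * s) ^ 2 ≠ 0 := by
  by_cases ha : a = 0
  · by_cases hb : b = 0
    · have hc : c ≠ 0 := fun hc => hne ⟨ha, hb, hc⟩
      refine ⟨1, 0, 0, 1, by norm_num, fun s hs => ?_⟩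
      rw [ha, hb]
      have : (0 : K) * (1 + 0 * s) ^ 2 + 0 * (1 + 0 * s) * (0 + 1 * s) + c * (0 + 1 * s) ^ 2 =
          c * s ^ 2 := by ring
      rw [this]
      exact mul_ne_zero hc (pow_ne_zero 2 hs)
    · refine ⟨-c / b, 1, 1, 0, by norm_num, fun s hs => ?_⟩
      rw [ha]
      have : (0 : K) * (-c / b + 1 * s) ^ 2 + b * (-c / b + 1 * s) * (1 + 0 * s) +
          c * (1 + 0 * s) ^ 2 = b * s := by
        field_simp
        ring
      rw [this]
      exact mul_ne_zero hb hs
  · obtain ⟨r, hr⟩ := IsAlgClosed.exists_pow_nat_eq (b ^ 2 - 4 * a * c) (n := 2) (by norm_num)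
    by_cases hr0 : r = 0
    · refine ⟨-b / (2 * a), 1, 1, 0, by norm_num, fun s hs => ?_⟩
      have : a * (-b / (2 * a) + 1 * s) ^ 2 + b * (-b / (2 * a) + 1 * s) * (1 + 0 * s) +
          c * (1 + 0 * s) ^ 2 = a * s ^ 2 - (b ^ 2 - 4 * a * c) / (4 * a) := by
        field_simp
        ring
      rw [this, ← hr, hr0]
      have h3 : a * s ^ 2 - 0 ^ 2 / (4 * a) = a * s ^ 2 := by norm_num
      rw [h3]
      exact mul_ne_zero ha (pow_ne_zero 2 hs)
    · refine ⟨(-b + r) / (2 * a), (-b - r) / (2 * a), 1, 1, ?_, fun s hs => ?_⟩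
      · have : (-b + r) / (2 * a) * 1 - (-b - r) / (2 * a) * 1 = r / a := by
          field_simp
          ring
        rw [this]
        exact div_ne_zero hr0 ha
      · have h5 : a * ((-b + r) / (2 * a) + (-b - r) / (2 * a) * s) ^ 2 +
            b * ((-b + r) / (2 * a) + (-b - r) / (2 * a) * s) * (1 + 1 * s) +
            c * (1 + 1 * s) ^ 2 = - (r ^ 2 * s) / a + ((1 + s) ^ 2 / (4 * a)) *
              (r ^ 2 - (b ^ 2 - 4 * a * c)) := by
          field_simp
          ring
        rw [h5, hr, sub_self, mul_zero, add_zero]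
        refine div_ne_zero (neg_ne_zero.2 (mul_ne_zero ?_ hs)) ha
        rw [← hr]
        exact pow_ne_zero 2 hr0

/-- Every nonzero polynomial of degree at most four is a product of two of degree at most two. -/
theorem split_four (h : ℂ[X]) (hd : h.natDegree ≤ 4) (h0 : h ≠ 0) :
    ∃ g₁ g₂ : ℂ[X], g₁.natDegree ≤ 2 ∧ g₂.natDegree ≤ 2 ∧ h = g₁ * g₂ := by
  by_cases h2 : h.natDegree ≤ 2
  · exact ⟨h, 1, h2, by simp, by rw [mul_one]⟩
  obtain ⟨r, hr⟩ := IsAlgClosed.exists_root h (by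
    intro h1
    have := natDegree_eq_zero_iff_degree_le_zero.2 (le_of_eq h1)
    omega)
  obtain ⟨u, rfl⟩ := dvd_iff_isRoot.2 hr
  have hu : u ≠ 0 := right_ne_zero_of_mul h0
  rw [natDegree_mul (X_sub_C_ne_zero r) hu, natDegree_X_sub_C] at hd h2
  obtain ⟨r', hr'⟩ := IsAlgClosed.exists_root u (by
    intro h1
    have := natDegree_eq_zero_iff_degree_le_zero.2 (le_of_eq h1)
    omega)
  obtain ⟨w, rfl⟩ := dvd_iff_isRoot.2 hr'
  have hw : w ≠ 0 := right_ne_zero_of_mul hu
  rw [natDegree_mul (X_sub_C_ne_zero r') hw, natDegree_X_sub_C] at hd h2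
  refine ⟨(X - C r) * (X - C r'), w, ?_, by omega, by ring⟩
  rw [natDegree_mul (X_sub_C_ne_zero r) (X_sub_C_ne_zero r'), natDegree_X_sub_C,
    natDegree_X_sub_C]

/-- A polynomial of degree at most two. -/
theorem aeval_two {M : Type} [Field M] [Algebra ℂ M] (g : ℂ[X]) (hg : g.natDegree ≤ 2) (z : M) :
    aeval z g = algebraMap ℂ M (g.coeff 2) * z ^ 2 + algebraMap ℂ M (g.coeff 1) * z +
      algebraMap ℂ M (g.coeff 0) := by
  rw [aeval_eq_sum_range' (n := 3) (by omega)]
  rw [Finset.sum_range_succ, Finset.sum_range_succ, Finset.sum_range_one]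
  rw [Algebra.smul_def, Algebra.smul_def, Algebra.smul_def]
  ring

theorem trans_t : Transcendental ℂ
    (algebraMap (RatFunc ℂ) (AlgebraicClosure (RatFunc ℂ)) RatFunc.X) := by
  rintro ⟨p, hp, hp0⟩
  rw [aeval_algebraMap_apply, map_eq_zero] at hp0
  exact RatFunc.transcendental_X ⟨p, hp, hp0⟩

/-- A polynomial in two variables at a constant first coordinate. -/
theorem ev_const (l : ℂ) (η : K) (f : ℂ[X][X]) :
    ev (algebraMap ℂ K l) η f = aeval η (f.map (evalRingHom l)) := by
  rw [ev_apply, aeval_def, eval₂_map]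
  congr 1
  ext z
  · simp
  · simp

theorem map_eq_zero_of_trans {η : K} (hη : ¬ ∃ e : ℂ, η = algebraMap ℂ K e) {l : ℂ}
    {f : ℂ[X][X]} (h : ev (algebraMap ℂ K l) η f = 0) : f.map (evalRingHom l) = 0 := by
  by_contra hne
  rw [ev_const] at h
  exact hη (const_of_isAlgebraic ⟨_, hne, h⟩)

theorem cone_gen [IsAlgClosed K] [CharZero K] (t : K) (ht : Transcendental ℂ t)
    (hPT : ST_PT) (hPL : ST_PLACE) (L : Type) [Field L] [Algebra ℂ L] (N : ℕ) (ω : Bracket L)
    (x : Fin (N + 1) → L) (Q Q' : Coord L) (g₁ g₂ : ℂ[X])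
    (hx' : Q'.x = Q.x⁻¹) (hy' : Q'.y = Q.y / Q.x ^ 2) (hg₁ : g₁.natDegree ≤ 2)
    (hg₂ : g₂.natDegree ≤ 2) (hg₁0 : g₁ ≠ 0)
    (H1 : ∀ (g : ℂ[X][X]) (v : DVal L), Irreducible g → ¬ g ∣ (X ^ 2 - C (g₁ * g₂)) →
      IsPlaceOf Q g v → CYp ω x v)
    (H2 : ∀ v : DVal L, IsPlaceOf Q' (C X) v → CYp ω x v) : Fam ω x := by
  have ht0 : t ≠ 0 := fun h0 => ht (by rw [h0]; exact isAlgebraic_zero)
  have h2K : (2 : K) ≠ 0 := two_ne_zero
  let qa : ℕ → K := fun j => t * algebraMap ℂ K (g₁.coeff j) - t⁻¹ * algebraMap ℂ K (g₂.coeff j)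
  have hrel0 : ∀ p q : ℂ, t * algebraMap ℂ K p - t⁻¹ * algebraMap ℂ K q = 0 → p = 0 ∧ q = 0 := by
    intro p q hpq
    have h1 : t * algebraMap ℂ K p + t⁻¹ * algebraMap ℂ K (-q) = algebraMap ℂ K 0 := by
      rw [map_neg, map_zero, ← hpq]
      ring
    obtain ⟨h2, h3⟩ := trans_rel ht h1
    exact ⟨h2, neg_eq_zero.1 h3⟩
  have hne : ¬ (qa 2 = 0 ∧ qa 1 = 0 ∧ qa 0 = 0) := by
    rintro ⟨h2, h1, h0'⟩
    apply hg₁0
    ext j
    rw [coeff_zero]
    by_cases hj : j ≤ 2
    · interval_cases j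
      · exact (hrel0 _ _ h0').1
      · exact (hrel0 _ _ h1).1
      · exact (hrel0 _ _ h2).1
    · exact coeff_eq_zero_of_natDegree_lt (by omega)
  obtain ⟨A, B, C', D, hdet, hq⟩ := quad_normal (qa 2) (qa 1) (qa 0) hne
  let U : K[X] := C A + C B * X
  let W : K[X] := C C' + C D * X
  have hUe : ∀ c, U.eval c = A + B * c := fun c => by simp [U]
  have hWe : ∀ c, W.eval c = C' + D * c := fun c => by simp [W]
  have hW0 : W ≠ 0 := by
    intro h
    have e0 : C' = 0 := by
      have := congrArg (fun r => r.coeff 0) h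
      simpa [W] using this
    have e1 : D = 0 := by
      have := congrArg (fun r => r.coeff 1) h
      simpa [W, coeff_C] using this
    exact hdet (by rw [e0, e1]; ring)
  have hU0 : U ≠ 0 := by
    intro h
    have e0 : A = 0 := by
      have := congrArg (fun r => r.coeff 0) h
      simpa [U] using this
    have e1 : B = 0 := by
      have := congrArg (fun r => r.coeff 1) h
      simpa [U, coeff_C] using this
    exact hdet (by rw [e0, e1]; ring)
  let am := algebraMap K[X] (RatFunc K)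
  have hamW : am W ≠ 0 := by
    intro h
    exact hW0 (by simpa [am] using h)
  have hamU : am U ≠ 0 := by
    intro h
    exact hU0 (by simpa [am] using h)
  let xs : RatFunc K := am U / am W
  have hxs0 : xs ≠ 0 := div_ne_zero hamU hamW
  let ys : RatFunc K := (RatFunc.C t * aeval xs g₁ + RatFunc.C t⁻¹ * aeval xs g₂) *
    RatFunc.C 2⁻¹
  have hxv : ∀ c, W.eval c ≠ 0 → ValAt c xs (U.eval c / W.eval c) := fun c hc =>
    valAt_div U W hc
  have hyv : ∀ c ξ, ValAt c xs ξ →
      ValAt c ys ((t * aeval ξ g₁ + t⁻¹ * aeval ξ g₂) * 2⁻¹) := fun c ξ hξ =>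
    valAt_mul (valAt_add (valAt_mul (valAt_C c t) (valAt_aeval hξ g₁))
      (valAt_mul (valAt_C c t⁻¹) (valAt_aeval hξ g₂))) (valAt_C c _)
  -- the value of `y` at a constant value of `x`
  have hconst : ∀ l e : ℂ, (t * aeval (algebraMap ℂ K l) g₁ + t⁻¹ * aeval (algebraMap ℂ K l) g₂) * 2⁻¹ = algebraMap ℂ K e →
      g₁.eval l = 0 ∧ g₂.eval l = 0 := by
    intro l e he
    have e1 : aeval (algebraMap ℂ K l) g₁ = algebraMap ℂ K (g₁.eval l) := aeval_algebraMap_apply_eq_algebraMap_eval l g₁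
    have e2 : aeval (algebraMap ℂ K l) g₂ = algebraMap ℂ K (g₂.eval l) := aeval_algebraMap_apply_eq_algebraMap_eval l g₂
    rw [e1, e2] at he
    apply trans_rel ht (e := 2 * e)
    have e3 : algebraMap ℂ K (2 * e) = 2 * algebraMap ℂ K e := by
      rw [map_mul, map_ofNat]
    rw [e3, ← he]
    have h2 : (2 : K) ≠ 0 := two_ne_zero
    field_simp
  have hinj : ∀ f : ℂ[X][X], ev xs ys f = 0 → f = 0 := by
    intro f hf
    have key : ∀ l : ℂ, algebraMap ℂ K l * D ≠ B → g₁.eval l ≠ 0 → f.map (evalRingHom l) = 0 := by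
      intro l hl hgl
      have hBD : B - algebraMap ℂ K l * D ≠ 0 := fun h => hl (sub_eq_zero.1 h).symm
      set c := (algebraMap ℂ K l * C' - A) / (B - algebraMap ℂ K l * D) with hc
      have hcm : c * (B - algebraMap ℂ K l * D) = algebraMap ℂ K l * C' - A := by
        rw [hc, div_mul_cancel₀ _ hBD]
      have hWc : W.eval c * (B - algebraMap ℂ K l * D) = B * C' - A * D := by
        rw [hWe]
        linear_combination D * hcm
      have hUc : U.eval c = algebraMap ℂ K l * W.eval c := by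
        rw [hUe, hWe]
        linear_combination hcm
      have hWc0 : W.eval c ≠ 0 := by
        intro h
        rw [h, zero_mul] at hWc
        exact hdet (by linear_combination hWc)
      have h1 := hxv c hWc0
      rw [hUc, mul_div_assoc, div_self hWc0, mul_one] at h1
      have h2 := valAt_ev h1 (hyv c _ h1) f
      rw [hf] at h2
      have h3 := valAt_zero_eq h2
      refine map_eq_zero_of_trans ?_ h3
      rintro ⟨e, he⟩
      exact hgl (hconst l e he).1
    ext j : 1
    rw [coeff_zero]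
    by_contra hj
    have hfin : ({l : ℂ | algebraMap ℂ K l * D = B} ∪ {l | g₁.IsRoot l} ∪
        {l | (f.coeff j).IsRoot l}).Finite := by
      refine ((?_ : Set.Finite _).union ?_).union ?_
      · apply Set.Subsingleton.finite
        intro l hl l' hl'
        have hl1 : algebraMap ℂ K l * D = B := hl
        have hl2 : algebraMap ℂ K l' * D = B := hl'
        by_cases hD : D = 0
        · exfalso
          rw [hD, mul_zero] at hl1
          exact hdet (by rw [hD, ← hl1]; ring)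
        · have : algebraMap ℂ K l = algebraMap ℂ K l' := mul_right_cancel₀ hD (hl1.trans hl2.symm)
          exact (algebraMap ℂ K).injective this
      · exact Polynomial.finite_setOfPred_isRoot hg₁0
      · exact Polynomial.finite_setOfPred_isRoot hj
    refine Set.infinite_univ (α := ℂ) (hfin.subset fun l _ => ?_)
    by_cases h1 : algebraMap ℂ K l * D = B
    · exact Or.inl (Or.inl h1)
    by_cases h2 : g₁.eval l = 0
    · exact Or.inl (Or.inr h2)
    right
    have h3 := key l h1 h2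
    have h4 := congrArg (fun r => r.coeff j) h3
    simpa using h4
  obtain ⟨i, hix, hiy, hiev⟩ := exists_coord_hom Q xs ys hinj
  refine ⟨K, inferInstance, inferInstance, i, ⟨Q.x, ?_⟩, ?_⟩
  · intro c hc
    rw [hix] at hc
    have h1 : am U = am (C c * W) := by
      have h2 : am (C c) = RatFunc.C c := RatFunc.algebraMap_C c
      rw [map_mul, h2, ← hc]
      exact (div_mul_cancel₀ _ hamW).symm
    have h2 : U = C c * W := RatFunc.algebraMap_injective K h1
    have e0 : A = c * C' := by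
      have := congrArg (fun r => r.coeff 0) h2
      simpa [U, W] using this
    have e1 : B = c * D := by
      have := congrArg (fun r => r.coeff 1) h2
      simpa [U, W, coeff_C] using this
    exact hdet (by rw [e0, e1]; ring)
  intro P hP hPX
  obtain ⟨c, hc0, hreg⟩ := regAtT_point P hP hPX
  simp only [hreg]
  by_cases hWc : W.eval c = 0
  · -- the point at infinity
    have hUc : U.eval c ≠ 0 := by
      intro h
      rw [hUe] at h
      rw [hWe] at hWc
      exact hdet (by linear_combination D * h - B * hWc)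
    have hq2 : qa 2 ≠ 0 := by
      intro h
      have h1 := hq c hc0
      rw [← hUe, ← hWe, hWc, h] at h1
      exact h1 (by ring)
    have hwv : ValAt c xs⁻¹ 0 := by
      have h1 := valAt_div W U hUc
      rw [hWc, zero_div] at h1
      have h2 : xs⁻¹ = am W / am U := inv_div _ _
      rw [h2]
      exact h1
    have hdivg : ∀ g : ℂ[X], g.natDegree ≤ 2 → aeval xs g / xs ^ 2 =
        algebraMap ℂ (RatFunc K) (g.coeff 2) + algebraMap ℂ (RatFunc K) (g.coeff 1) * xs⁻¹ +
          algebraMap ℂ (RatFunc K) (g.coeff 0) * xs⁻¹ ^ 2 := by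
      intro g hg
      rw [aeval_two g hg]
      field_simp
    have hgv : ∀ g : ℂ[X], g.natDegree ≤ 2 → ValAt c (aeval xs g / xs ^ 2) (algebraMap ℂ K (g.coeff 2)) := by
      intro g hg
      rw [hdivg g hg]
      have h1 := valAt_add (valAt_add (valAt_const c (g.coeff 2))
        (valAt_mul (valAt_const c (g.coeff 1)) hwv))
        (valAt_mul (valAt_const c (g.coeff 0)) (valAt_pow hwv 2))
      have h2 : algebraMap ℂ K (g.coeff 2) + algebraMap ℂ K (g.coeff 1) * 0 +
          algebraMap ℂ K (g.coeff 0) * 0 ^ 2 = algebraMap ℂ K (g.coeff 2) := by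
        rw [mul_zero, zero_pow two_ne_zero, mul_zero, add_zero, add_zero]
      rw [h2] at h1
      exact h1
    have hy2 : ys / xs ^ 2 = (RatFunc.C t * (aeval xs g₁ / xs ^ 2) +
        RatFunc.C t⁻¹ * (aeval xs g₂ / xs ^ 2)) * RatFunc.C 2⁻¹ := by
      change (RatFunc.C t * aeval xs g₁ + RatFunc.C t⁻¹ * aeval xs g₂) *
        RatFunc.C 2⁻¹ / xs ^ 2 = _
      field_simp
    have hyv2 : ValAt c (ys / xs ^ 2) ((t * algebraMap ℂ K (g₁.coeff 2) + t⁻¹ * algebraMap ℂ K (g₂.coeff 2)) * 2⁻¹) := by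
      rw [hy2]
      exact valAt_mul (valAt_add (valAt_mul (valAt_C c t) (hgv g₁ hg₁))
        (valAt_mul (valAt_C c t⁻¹) (hgv g₂ hg₂))) (valAt_C c _)
    have hnc : ¬ ∃ e : ℂ, (t * algebraMap ℂ K (g₁.coeff 2) + t⁻¹ * algebraMap ℂ K (g₂.coeff 2)) * 2⁻¹ =
        algebraMap ℂ K e := by
      rintro ⟨e, he⟩
      have h1 : g₁.coeff 2 = 0 ∧ g₂.coeff 2 = 0 := by
        apply trans_rel ht (e := 2 * e)
        have e3 : algebraMap ℂ K (2 * e) = 2 * algebraMap ℂ K e := by
          rw [map_mul, map_ofNat]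
        have he' : (t * algebraMap ℂ K (g₁.coeff 2) + t⁻¹ * algebraMap ℂ K (g₂.coeff 2)) * 2⁻¹ = algebraMap ℂ K e := he
        rw [e3, ← he']
        have h2 : (2 : K) ≠ 0 := two_ne_zero
        field_simp
      apply hq2
      change t * algebraMap ℂ K (g₁.coeff 2) - t⁻¹ * algebraMap ℂ K (g₂.coeff 2) = 0
      rw [h1.1, h1.2, map_zero, mul_zero, mul_zero, sub_zero]
    have hiQx : i Q'.x = xs⁻¹ := by rw [hx', map_inv₀, hix]
    have hiQy : i Q'.y = ys / xs ^ 2 := by rw [hy', map_div₀, map_pow, hix, hiy]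
    rcases hPT L Q' K i c 0 _ (by rw [hiQx]; exact hwv) (by rw [hiQy]; exact hyv2)
      (fun h => hnc h.2) with h1 | ⟨f, hf, hf0, hfv⟩
    · exact Or.inl h1
    · right
      obtain ⟨v, hv, -⟩ := hPL L Q' f hf
      have hm : f.map (evalRingHom 0) = 0 := by
        apply map_eq_zero_of_trans hnc
        rw [map_zero]
        exact hf0
      have hdvd : (C X : ℂ[X][X]) ∣ f := by
        rw [C_dvd_iff_dvd_coeff]
        intro j
        rw [X_dvd_iff, coeff_zero_eq_eval_zero]
        have h4 := congrArg (fun r => r.coeff j) hm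
        simpa using h4
      obtain ⟨u, hu⟩ := hdvd
      have hnu : ¬ IsUnit (C X : ℂ[X][X]) := by
        rw [isUnit_C]
        exact not_isUnit_X
      have huu : IsUnit u := (hf.isUnit_or_isUnit hu).resolve_left hnu
      have hvu : v.v (ev Q'.x Q'.y u) = 0 := hv.2 u fun h => hf.not_isUnit (isUnit_of_dvd_unit h huu)
      have hpl : IsPlaceOf Q' (C X) v := by
        constructor
        · have h5 := hv.1
          rw [hu, map_mul, v.map_mul _ _ (Q'.ne (by
            intro h0; rw [C_eq_zero] at h0; exact X_ne_zero h0)) (Q'.ne huu.ne_zero), hvu,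
            add_zero] at h5
          exact h5
        · intro g hg
          apply hv.2 g
          intro h6
          exact hg ((Dvd.intro u hu.symm).trans h6)
      obtain ⟨h7, h8⟩ := H2 v hpl
      exact ⟨v, h7, h8, hfv v hv⟩
  · -- a finite point
    set ξ := U.eval c / W.eval c with hξ
    have hxc : ValAt c xs ξ := hxv c hWc
    set η := (t * aeval ξ g₁ + t⁻¹ * aeval ξ g₂) * 2⁻¹ with hη
    have hyc : ValAt c ys η := hyv c ξ hxc
    have hQd : t * aeval ξ g₁ - t⁻¹ * aeval ξ g₂ ≠ 0 := by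
      intro h
      apply hq c hc0
      rw [← hUe, ← hWe]
      have hUξ : U.eval c = ξ * W.eval c := by
        rw [hξ, div_mul_cancel₀ _ hWc]
      rw [hUξ]
      rw [aeval_two g₁ hg₁, aeval_two g₂ hg₂] at h
      change (t * algebraMap ℂ K (g₁.coeff 2) - t⁻¹ * algebraMap ℂ K (g₂.coeff 2)) * (ξ * W.eval c) ^ 2 +
        (t * algebraMap ℂ K (g₁.coeff 1) - t⁻¹ * algebraMap ℂ K (g₂.coeff 1)) * (ξ * W.eval c) * W.eval c +
        (t * algebraMap ℂ K (g₁.coeff 0) - t⁻¹ * algebraMap ℂ K (g₂.coeff 0)) * W.eval c ^ 2 = 0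
      have h' : t * (algebraMap ℂ K (g₁.coeff 2) * ξ ^ 2 + algebraMap ℂ K (g₁.coeff 1) * ξ + algebraMap ℂ K (g₁.coeff 0)) -
          t⁻¹ * (algebraMap ℂ K (g₂.coeff 2) * ξ ^ 2 + algebraMap ℂ K (g₂.coeff 1) * ξ + algebraMap ℂ K (g₂.coeff 0)) = 0 := h
      linear_combination (W.eval c) ^ 2 * h'
    have hncc : ¬ ((∃ a : ℂ, ξ = algebraMap ℂ K a) ∧ ∃ b : ℂ, η = algebraMap ℂ K b) := by
      rintro ⟨⟨l, hl⟩, ⟨e, he⟩⟩
      have h1 : g₁.eval l = 0 ∧ g₂.eval l = 0 := by
        apply hconst l e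
        rw [hη, hl] at he
        exact he
      apply hQd
      rw [hl]
      have e1 : aeval (algebraMap ℂ K l) g₁ = algebraMap ℂ K (g₁.eval l) :=
        aeval_algebraMap_apply_eq_algebraMap_eval l g₁
      have e2 : aeval (algebraMap ℂ K l) g₂ = algebraMap ℂ K (g₂.eval l) :=
        aeval_algebraMap_apply_eq_algebraMap_eval l g₂
      rw [e1, e2, h1.1, h1.2, map_zero, mul_zero, mul_zero, sub_zero]
    rcases hPT L Q K i c ξ η (by rw [hix]; exact hxc) (by rw [hiy]; exact hyc) hncc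
      with h1 | ⟨f, hf, hf0, hfv⟩
    · exact Or.inl h1
    · right
      obtain ⟨v, hv, -⟩ := hPL L Q f hf
      have hnd : ¬ f ∣ (X ^ 2 - C (g₁ * g₂)) := by
        rintro ⟨u, hu⟩
        have h2 : ev ξ η (X ^ 2 - C (g₁ * g₂)) = ev ξ η f * ev ξ η u := by rw [hu, map_mul]
        rw [hf0, zero_mul, map_sub, map_pow, ev_X, ev_C, map_mul] at h2
        apply hQd
        have h3 : (t * aeval ξ g₁ - t⁻¹ * aeval ξ g₂) ^ 2 =
            4 * (η ^ 2 - aeval ξ g₁ * aeval ξ g₂) := by
          rw [hη]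
          field_simp
          ring
        rw [h2, mul_zero] at h3
        exact pow_eq_zero_iff two_ne_zero |>.1 h3
      obtain ⟨h7, h8⟩ := H1 f v hf hnd hv
      exact ⟨v, h7, h8, hfv v hv⟩

theorem cone (hPT : ST_PT) (hPL : ST_PLACE) : ST_CONE := by
  intro L _ _ N ω x Q Q' h hx' hy' hd h0 _ _ H1 H2
  obtain ⟨g₁, g₂, hg₁, hg₂, rfl⟩ := split_four h hd h0
  have hchar : CharZero (AlgebraicClosure (RatFunc ℂ)) := algebraRat.charZero _
  exact cone_gen _ trans_t hPT hPL L N ω x Q Q' g₁ g₂ hx' hy' hg₁ hg₂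
    (left_ne_zero_of_mul h0) H1 H2

end

end LCY.H36
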