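import Pool.Agent.Helper27.LCY.Abs
import Pool.Agent.Helper51.LCY.P2

/-! From discrete valuation rings to divisorial valuations (MP_f7e214_ag). -/

open Polynomial WithZero

namespace LCY

noncomputable section

/-- The valuation of a discrete valuation ring on its fraction field, with additive integer
values. -/
def dvrVal (O L : Type) [CommRing O] [IsDomain O] [IsDiscreteValuationRing O] [Field L]
    [Algebra O L] [IsFractionRing O L] (a : L) : ℤ :=
  - log ((IsDiscreteValuationRing.maximalIdeal O).valuation L a)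

section

variable {O L : Type} [CommRing O] [IsDomain O] [IsDiscreteValuationRing O] [Field L]
    [Algebra O L] [IsFractionRing O L]

theorem dvrW_ne {a : L} (ha : a ≠ 0) :
    (IsDiscreteValuationRing.maximalIdeal O).valuation L a ≠ 0 :=
  (Valuation.ne_zero_iff _).2 ha

theorem dvrVal_mul {a b : L} (ha : a ≠ 0) (hb : b ≠ 0) :
    dvrVal O L (a * b) = dvrVal O L a + dvrVal O L b := by
  unfold dvrVal
  rw [map_mul, log_mul (dvrW_ne ha) (dvrW_ne hb)]
  ring

theorem dvrVal_add {a b : L} (ha : a ≠ 0) (hb : b ≠ 0) (hab : a + b ≠ 0) :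
    min (dvrVal O L a) (dvrVal O L b) ≤ dvrVal O L (a + b) := by
  unfold dvrVal
  have h := Valuation.map_add ((IsDiscreteValuationRing.maximalIdeal O).valuation L) a b
  rcases le_max_iff.1 h with h | h
  · rw [← log_le_log (dvrW_ne hab) (dvrW_ne ha)] at h
    exact (min_le_left _ _).trans (by omega)
  · rw [← log_le_log (dvrW_ne hab) (dvrW_ne hb)] at h
    exact (min_le_right _ _).trans (by omega)

theorem dvrVal_nonneg_iff {a : L} (ha : a ≠ 0) :
    0 ≤ dvrVal O L a ↔ ∃ b : O, algebraMap O L b = a := by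
  unfold dvrVal
  have h1 : 0 ≤ - log ((IsDiscreteValuationRing.maximalIdeal O).valuation L a) ↔
      (IsDiscreteValuationRing.maximalIdeal O).valuation L a ≤ 1 := by
    rw [← log_le_log (dvrW_ne ha) one_ne_zero, log_one]
    omega
  rw [h1]
  constructor
  · intro h
    exact IsDiscreteValuationRing.exists_lift_of_le_one h
  · rintro ⟨b, rfl⟩
    exact IsDedekindDomain.HeightOneSpectrum.valuation_le_one _ _

theorem dvrVal_zero : dvrVal O L 0 = 0 := by
  simp [dvrVal]

theorem dvrVal_inv (a : L) : dvrVal O L a⁻¹ = - dvrVal O L a := by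
  unfold dvrVal
  rw [map_inv₀, log_inv]

theorem dvrVal_pos_iff {b : O} (hb : b ≠ 0) :
    0 < dvrVal O L (algebraMap O L b) ↔ b ∈ IsLocalRing.maximalIdeal O := by
  have hb' : algebraMap O L b ≠ 0 :=
    fun h => hb (IsFractionRing.injective O L (by rw [h, map_zero]))
  unfold dvrVal
  have h1 : 0 < - log ((IsDiscreteValuationRing.maximalIdeal O).valuation L
      (algebraMap O L b)) ↔
      (IsDiscreteValuationRing.maximalIdeal O).valuation L (algebraMap O L b) < 1 := by
    rw [← log_lt_log (dvrW_ne hb') one_ne_zero, log_one]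
    omega
  rw [h1]
  exact IsDedekindDomain.HeightOneSpectrum.valuation_lt_one_iff_mem _ _

theorem dvrVal_unit {b : O} (hb : IsUnit b) : dvrVal O L (algebraMap O L b) = 0 := by
  have hb0 : b ≠ 0 := hb.ne_zero
  have hb' : algebraMap O L b ≠ 0 :=
    fun h => hb0 (IsFractionRing.injective O L (by rw [h, map_zero]))
  have h1 : 0 ≤ dvrVal O L (algebraMap O L b) := (dvrVal_nonneg_iff hb').2 ⟨b, rfl⟩
  have h2 : ¬ 0 < dvrVal O L (algebraMap O L b) := by
    rw [dvrVal_pos_iff hb0]
    exact fun h => h hb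
  omega

theorem exists_dvrVal_one : ∃ π : L, π ≠ 0 ∧ dvrVal O L π = 1 := by
  obtain ⟨π, hπ⟩ := IsDedekindDomain.HeightOneSpectrum.valuation_exists_uniformizer L
    (IsDiscreteValuationRing.maximalIdeal O)
  refine ⟨π, ?_, ?_⟩
  · rintro rfl
    rw [map_zero] at hπ
    exact (WithZero.coe_ne_zero hπ.symm).elim
  · unfold dvrVal
    rw [hπ]
    rfl

end

/-- The divisorial valuation of a discrete valuation ring over the complex numbers with a
transcendental element in its residue field. -/
def dvalOfDvr (O L : Type) [CommRing O] [IsDomain O] [IsDiscreteValuationRing O] [Field L]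
    [Algebra O L] [IsFractionRing O L] [Algebra ℂ O] [Algebra ℂ L] [IsScalarTower ℂ O L]
    (t : O) (ht : ∀ P : ℂ[X], P ≠ 0 → IsUnit (aeval t P)) : DVal L where
  v := dvrVal O L
  map_mul a b ha hb := dvrVal_mul ha hb
  map_add a b ha hb hab := dvrVal_add ha hb hab
  map_const c hc := by
    rw [IsScalarTower.algebraMap_apply ℂ O L]
    exact dvrVal_unit ((IsUnit.mk0 c hc).map (algebraMap ℂ O))
  exists_unif := exists_dvrVal_one
  exists_res := ⟨algebraMap O L t, fun P hP => by
    have h : aeval (algebraMap O L t) P = algebraMap O L (aeval t P) := by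
      rw [aeval_algebraMap_apply]
    rw [h]
    refine ⟨fun h0 => (ht P hP).ne_zero (IsFractionRing.injective O L (by rw [h0, map_zero])),
      dvrVal_unit (ht P hP)⟩⟩

section

variable {O L : Type} [CommRing O] [IsDomain O] [IsDiscreteValuationRing O] [Field L]
    [Algebra O L] [IsFractionRing O L] [Algebra ℂ O] [Algebra ℂ L] [IsScalarTower ℂ O L]
    {t : O} {ht : ∀ P : ℂ[X], P ≠ 0 → IsUnit (aeval t P)}

theorem dvalOfDvr_int (a : L) :
    (dvalOfDvr O L t ht).Int a ↔ ∃ b : O, algebraMap O L b = a := by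
  unfold DVal.Int
  by_cases ha : a = 0
  · exact ⟨fun _ => ⟨0, by rw [ha, map_zero]⟩, fun _ => Or.inl ha⟩
  · constructor
    · rintro (h | h)
      · exact absurd h ha
      · exact (dvrVal_nonneg_iff ha).1 h
    · exact fun h => Or.inr ((dvrVal_nonneg_iff ha).2 h)

theorem dvalOfDvr_pos (b : O) :
    (dvalOfDvr O L t ht).Pos (algebraMap O L b) ↔ b ∈ IsLocalRing.maximalIdeal O := by
  unfold DVal.Pos
  by_cases hb : b = 0
  · subst hb
    simp
  · have hb' : algebraMap O L b ≠ 0 :=
      fun h => hb (IsFractionRing.injective O L (by rw [h, map_zero]))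
    constructor
    · rintro (h | h)
      · exact absurd h hb'
      · exact (dvrVal_pos_iff hb).1 h
    · exact fun h => Or.inr ((dvrVal_pos_iff hb).2 h)

end

variable {L : Type} [Field L] [Algebra ℂ L]

/-- If a product of two integral elements lies in the maximal ideal, one factor does. -/
theorem DVal.pos_or_pos (v : DVal L) {a b : L} (ha : v.Int a) (hb : v.Int b)
    (h : v.Pos (a * b)) : v.Pos a ∨ v.Pos b := by
  by_cases h0 : a = 0
  · exact Or.inl (Or.inl h0)
  by_cases h1 : b = 0
  · exact Or.inr (Or.inl h1)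
  have h2 := h.resolve_left (mul_ne_zero h0 h1)
  rw [v.map_mul _ _ h0 h1] at h2
  have h3 : 0 ≤ v.v a := ha.resolve_left h0
  have h4 : 0 ≤ v.v b := hb.resolve_left h1
  by_cases h5 : 0 < v.v a
  · exact Or.inl (Or.inr h5)
  · exact Or.inr (Or.inr (by omega))

/-- The valuation ring of a divisorial valuation. -/
def DVal.ring (v : DVal L) : Subalgebra ℂ L where
  carrier := {a | v.Int a}
  mul_mem' := v.int_mul
  add_mem' := v.int_add
  algebraMap_mem' := v.int_const

theorem DVal.mem_ring (v : DVal L) (a : L) : a ∈ v.ring ↔ v.Int a := Iff.rfl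

/-- Elements integral over the valuation ring are integral at the valuation. -/
theorem DVal.int_of_isIntegral (v : DVal L) {A : Type} [CommRing A] [Algebra A L]
    (hA : ∀ a : A, v.Int (algebraMap A L a)) {h : L} (hh : IsIntegral A h) : v.Int h := by
  by_contra hcon
  unfold DVal.Int at hcon
  push Not at hcon
  obtain ⟨h0, hneg⟩ := hcon
  obtain ⟨P, hP, hPh⟩ := hh
  set n := P.natDegree with hn
  -- `h⁻¹` lies in the maximal ideal
  have hinv : v.Pos h⁻¹ := by
    right
    rw [v.map_inv h0]
    omega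
  have hn0 : n ≠ 0 := by
    intro hn0
    have hPm : P.Monic := hP
    have : P = 1 := hPm.natDegree_eq_zero.1 hn0
    rw [this, eval₂_one] at hPh
    exact one_ne_zero hPh
  have hsum : (∑ i ∈ Finset.range n, algebraMap A L (P.coeff i) * h ^ i) = - h ^ n := by
    rw [eval₂_eq_sum_range, Finset.sum_range_succ, ← hn] at hPh
    have h1 : P.coeff n = 1 := hP
    rw [h1, _root_.map_one, one_mul] at hPh
    exact eq_neg_of_add_eq_zero_left hPh
  have h1 : (1 : L) = - ∑ i ∈ Finset.range n,
      algebraMap A L (P.coeff i) * (h⁻¹) ^ (n - i) := by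
    have h2 : (∑ i ∈ Finset.range n, algebraMap A L (P.coeff i) * (h⁻¹) ^ (n - i)) =
        (∑ i ∈ Finset.range n, algebraMap A L (P.coeff i) * h ^ i) * (h⁻¹) ^ n := by
      rw [Finset.sum_mul]
      refine Finset.sum_congr rfl fun i hi => ?_
      have hi' : i < n := Finset.mem_range.1 hi
      have h3 : (h⁻¹) ^ n = (h⁻¹) ^ (n - i) * (h⁻¹) ^ i := by
        rw [← pow_add]
        congr 1
        omega
      rw [h3, inv_pow, inv_pow, mul_assoc, mul_comm ((h ^ (n - i))⁻¹) _, ← mul_assoc (h ^ i),
        mul_inv_cancel₀ (pow_ne_zero i h0), one_mul]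
    rw [h2, hsum, inv_pow, neg_mul, mul_inv_cancel₀ (pow_ne_zero n h0), neg_neg]
  apply v.not_pos_one
  rw [h1]
  apply v.pos_neg
  have : ∀ s : Finset ℕ, (∀ i ∈ s, i < n) → v.Pos (∑ i ∈ s,
      algebraMap A L (P.coeff i) * (h⁻¹) ^ (n - i)) := by
    intro s
    induction s using Finset.induction_on with
    | empty => intro _; left; simp
    | insert i s hi ih =>
      intro hs
      rw [Finset.sum_insert hi]
      have hin := hs i (Finset.mem_insert_self _ _)
      obtain ⟨k, hk⟩ : ∃ k, n - i = k + 1 := ⟨n - i - 1, by omega⟩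
      refine v.pos_add ?_ (ih fun j hj => hs j (Finset.mem_insert_of_mem hj))
      rw [mul_comm, hk, pow_succ, mul_comm (h⁻¹ ^ k)]
      exact v.pos_mul_int (v.pos_mul_int hinv (v.int_pow hinv.int k)) (hA _)
  exact this _ fun i hi => Finset.mem_range.1 hi

/-- Two divisorial valuations with the same valuation ring are equal. -/
theorem DVal.same_of_int (v w : DVal L) (h : ∀ a, v.Int a ↔ w.Int a) : v.Same w := by
  have key : ∀ (v w : DVal L), (∀ a, v.Int a ↔ w.Int a) → ∀ a, a ≠ 0 → v.v a ≤ w.v a := by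
    intro v w h a ha
    obtain ⟨π, hπ, hπ1⟩ := v.exists_unif
    -- `a / π ^ v(a)` is a unit of both rings, `π` is integral at `w`
    have h1 : v.Int (a / π ^ (v.v a)) := by
      right
      rw [v.map_div ha (zpow_ne_zero _ hπ), v.map_zpow hπ, hπ1]
      omega
    have h2 : w.Int (a / π ^ (v.v a)) := (h _).1 h1
    have h1' : v.Int (π ^ (v.v a) / a) := by
      right
      rw [v.map_div (zpow_ne_zero _ hπ) ha, v.map_zpow hπ, hπ1]
      omega
    have h2' : w.Int (π ^ (v.v a) / a) := (h _).1 h1'
    have h3 : w.v a = v.v a * w.v π := by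
      have e1 := h2.resolve_left (div_ne_zero ha (zpow_ne_zero _ hπ))
      have e2 := h2'.resolve_left (div_ne_zero (zpow_ne_zero _ hπ) ha)
      rw [w.map_div ha (zpow_ne_zero _ hπ), w.map_zpow hπ] at e1
      rw [w.map_div (zpow_ne_zero _ hπ) ha, w.map_zpow hπ] at e2
      omega
    -- `w(π) = 1`
    have h4 : 0 < w.v π := by
      by_contra hc
      have h5 : w.Int π⁻¹ := by
        right
        rw [w.map_inv hπ]
        omega
      have h6 := ((h _).2 h5).resolve_left (inv_ne_zero hπ)
      rw [v.map_inv hπ, hπ1] at h6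
      omega
    obtain ⟨ρ, hρ, hρ1⟩ := w.exists_unif
    have h7 : w.v ρ = v.v ρ * w.v π := by
      have h1 : v.Int (ρ / π ^ (v.v ρ)) := by
        right
        rw [v.map_div hρ (zpow_ne_zero _ hπ), v.map_zpow hπ, hπ1]
        omega
      have h2 : w.Int (ρ / π ^ (v.v ρ)) := (h _).1 h1
      have h1' : v.Int (π ^ (v.v ρ) / ρ) := by
        right
        rw [v.map_div (zpow_ne_zero _ hπ) hρ, v.map_zpow hπ, hπ1]
        omega
      have h2' : w.Int (π ^ (v.v ρ) / ρ) := (h _).1 h1'
      have e1 := h2.resolve_left (div_ne_zero hρ (zpow_ne_zero _ hπ))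
      have e2 := h2'.resolve_left (div_ne_zero (zpow_ne_zero _ hπ) hρ)
      rw [w.map_div hρ (zpow_ne_zero _ hπ), w.map_zpow hπ] at e1
      rw [w.map_div (zpow_ne_zero _ hπ) hρ, w.map_zpow hπ] at e2
      omega
    have h8 : w.v π = 1 := by
      rw [hρ1] at h7
      have h9 : w.v π ∣ 1 := ⟨v.v ρ, by rw [mul_comm]; exact h7⟩
      exact Int.eq_one_of_dvd_one h4.le h9
    rw [h3, h8, mul_one]
  intro a ha
  exact le_antisymm (key v w h a ha) (key w v (fun a => (h a).symm) a ha)

end

end LCY
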