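import Mathlib

/-!
Scheme-theoretic definitions for problem MP_f7e214_ag: log Calabi-Yau surface pairs (Y, D) with
Du Val singularities, the open surface U, and images of the multiplicative group.
-/

open AlgebraicGeometry CategoryTheory CategoryTheory.Limits

namespace Pool.Agent.Helper36.LCY

noncomputable section

attribute [local instance] MvPolynomial.gradedAlgebra

/-- Projective `N`-space over the complex numbers. -/
def PN (N : ℕ) : Scheme.{0} :=
  Proj (MvPolynomial.homogeneousSubmodule (Fin (N + 1)) ℂ)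

/-- The structure morphism of projective `N`-space over the complex numbers. -/
def PN.toSpec (N : ℕ) : PN N ⟶ Spec (.of ℂ) :=
  Proj.toSpecZero (MvPolynomial.homogeneousSubmodule (Fin (N + 1)) ℂ) ≫
    Spec.map (CommRingCat.ofHom
      (algebraMap ℂ (MvPolynomial.homogeneousSubmodule (Fin (N + 1)) ℂ 0)))

/-- An integral scheme with a morphism to the spectrum of the complex numbers. -/
structure IntScheme where
  /-- the scheme -/
  Y : Scheme.{0}
  /-- the structure morphism -/
  s : Y ⟶ Spec (.of ℂ)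
  [int : IsIntegral Y]

namespace IntScheme

attribute [instance] IntScheme.int

variable (Y : IntScheme)

/-- `Y` is projective over the complex numbers: it has a closed immersion over the complex numbers
into a projective space. -/
def Projective : Prop :=
  ∃ (N : ℕ) (i : Y.Y ⟶ PN N), IsClosedImmersion i ∧ i ≫ PN.toSpec N = Y.s

/-- The local ring of `Y` at the point `y`. -/
abbrev loc (y : Y.Y) : Type := Y.Y.presheaf.stalk y

/-- The function field of `Y`. -/
abbrev L : Type := Y.Y.functionField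

/-- The constants in the local ring at `y`. -/
def const (y : Y.Y) : ℂ →+* Y.loc y :=
  ((Scheme.ΓSpecIso (.of ℂ)).inv ≫ Y.s.appTop ≫ Y.Y.presheaf.germ ⊤ y trivial).hom

instance (y : Y.Y) : Algebra ℂ (Y.loc y) := (Y.const y).toAlgebra

/-- The function field is an algebra over the complex numbers. -/
instance : Algebra ℂ Y.L := (Y.const (genericPoint Y.Y)).toAlgebra

/-- `Y` is normal: all local rings are integrally closed domains. -/
def Normal : Prop := ∀ y : Y.Y, IsIntegrallyClosed (Y.loc y)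

/-- `y` is a regular point of `Y`. -/
def Regular (y : Y.Y) : Prop := IsRegularLocalRing (Y.loc y)

/-- The equations of the Du Val singularities. -/
inductive IsADE : MvPowerSeries (Fin 3) ℂ → Prop
  | A (n : ℕ) (hn : 1 ≤ n) : IsADE (MvPowerSeries.X 0 ^ 2 + MvPowerSeries.X 1 ^ 2
      + MvPowerSeries.X 2 ^ (n + 1))
  | D (n : ℕ) (hn : 4 ≤ n) : IsADE (MvPowerSeries.X 0 ^ 2
      + MvPowerSeries.X 1 ^ 2 * MvPowerSeries.X 2 + MvPowerSeries.X 2 ^ (n - 1))
  | E6 : IsADE (MvPowerSeries.X 0 ^ 2 + MvPowerSeries.X 1 ^ 3 + MvPowerSeries.X 2 ^ 4)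
  | E7 : IsADE (MvPowerSeries.X 0 ^ 2 + MvPowerSeries.X 1 ^ 3
      + MvPowerSeries.X 1 * MvPowerSeries.X 2 ^ 3)
  | E8 : IsADE (MvPowerSeries.X 0 ^ 2 + MvPowerSeries.X 1 ^ 3 + MvPowerSeries.X 2 ^ 5)

/-- `Y` has a Du Val singularity at the closed point `y`: the completed local ring is the ring of
power series in three variables modulo an ADE equation. -/
def DuVal (y : Y.Y) : Prop :=
  ∃ f : MvPowerSeries (Fin 3) ℂ, IsADE f ∧ Nonempty
    (AdicCompletion (IsLocalRing.maximalIdeal (Y.loc y)) (Y.loc y) ≃+*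
      (MvPowerSeries (Fin 3) ℂ ⧸ Ideal.span {f}))

/-- `Y` is uniruled, equivalently birationally ruled: its function field is `E(t)`, where `E` has
transcendence degree one over the complex numbers and `t` is transcendental over `E`. -/
def Uniruled : Prop :=
  ∃ (E : IntermediateField ℂ Y.L) (t : Y.L), Algebra.trdeg ℂ E = 1 ∧ Transcendental E t ∧
    IntermediateField.adjoin E {t} = ⊤

/-- `η` is (the generic point of) a prime divisor of `Y`. -/
def IsPrimeDivisor (η : Y.Y) : Prop := Order.coheight η = 1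

/-- The prime ideal, in the local ring at `y`, of the closed integral subscheme with generic
point `η`. -/
def primeAt (η y : Y.Y) (h : η ⤳ y) : Ideal (Y.loc y) :=
  (IsLocalRing.maximalIdeal (Y.loc η)).comap (Y.Y.presheaf.stalkSpecializes h).hom

/-- The divisor `D` (the sum of the prime divisors in the finite set `D`) has simple normal
crossings. -/
structure SNC (D : Set Y.Y) : Prop where
  finite : D.Finite
  prime : ∀ η ∈ D, Y.IsPrimeDivisor η
  smooth : ∀ η ∈ D, ∀ (y : Y.Y) (h : η ⤳ y), IsRegularLocalRing (Y.loc y ⧸ Y.primeAt η y h)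
  transversal : ∀ η ∈ D, ∀ η' ∈ D, η ≠ η' → ∀ (y : Y.Y) (h : η ⤳ y) (h' : η' ⤳ y),
    Y.primeAt η y h ⊔ Y.primeAt η' y h' = IsLocalRing.maximalIdeal (Y.loc y)
  noTriple : ∀ η₁ ∈ D, ∀ η₂ ∈ D, ∀ η₃ ∈ D, η₁ ≠ η₂ → η₁ ≠ η₃ → η₂ ≠ η₃ →
    ∀ y : Y.Y, ¬ (η₁ ⤳ y ∧ η₂ ⤳ y ∧ η₃ ⤳ y)

/-- Rational 2-forms on `Y`. -/
abbrev Forms : Type := ⋀[Y.L]^2 (Ω[Y.L⁄ℂ])

/-- The rational 2-form `da ∧ db`. -/
def dd (a b : Y.L) : Y.Forms :=
  exteriorPower.ιMulti Y.L 2 ![KaehlerDifferential.D ℂ Y.L a, KaehlerDifferential.D ℂ Y.L b]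

/-- The group of the rational 2-forms that are regular at `η`: the module, over the local ring at
`η`, generated by the forms `da ∧ db` with `a` and `b` in the local ring. -/
def regForms (η : Y.Y) : AddSubgroup Y.Forms :=
  AddSubgroup.closure {m | ∃ a b c : Y.loc η, m = algebraMap (Y.loc η) Y.L c •
    Y.dd (algebraMap (Y.loc η) Y.L a) (algebraMap (Y.loc η) Y.L b)}

/-- The rational 2-form `ω` has no zero and no pole along the prime divisor `η`: it generates the
module of the 2-forms regular at `η`. -/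
def OrderZero (ω : Y.Forms) (η : Y.Y) : Prop :=
  (Y.regForms η : Set Y.Forms) = {m | ∃ c : Y.loc η, m = algebraMap (Y.loc η) Y.L c • ω}

/-- The rational 2-form `ω` has a simple pole along the prime divisor `η`. -/
def SimplePole (ω : Y.Forms) (η : Y.Y) : Prop :=
  (Y.regForms η : Set Y.Forms) = {m | ∃ c ∈ IsLocalRing.maximalIdeal (Y.loc η),
    m = algebraMap (Y.loc η) Y.L c • ω}

/-- `K_Y + D` is linearly equivalent to zero: there is a rational 2-form whose divisor is `-D`. -/
def LogCanonicalTrivial (D : Set Y.Y) : Prop :=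
  ∃ ω : Y.Forms, ω ≠ 0 ∧ ∀ η, Y.IsPrimeDivisor η →
    (η ∉ D → Y.OrderZero ω η) ∧ (η ∈ D → Y.SimplePole ω η)

/-- The pairs `(Y, D)` of the question. -/
structure LogCY (D : Set Y.Y) : Prop where
  projective : Y.Projective
  surface : topologicalKrullDim Y.Y = 2
  normal : Y.Normal
  duVal : ∀ y : Y.Y, IsClosed ({y} : Set Y.Y) → Y.Regular y ∨ Y.DuVal y
  uniruled : Y.Uniruled
  snc : Y.SNC D
  trivial : Y.LogCanonicalTrivial D

/-- The open surface `U`: the regular points of `Y` outside `D`. -/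
def U (D : Set Y.Y) : Set Y.Y := {y | Y.Regular y ∧ ∀ η ∈ D, ¬ η ⤳ y}

/-- The multiplicative group, as a scheme. -/
def Gm : Scheme.{0} := Spec (.of (LaurentPolynomial ℂ))

/-- The structure morphism of the multiplicative group. -/
def Gm.toSpec : Gm ⟶ Spec (.of ℂ) :=
  Spec.map (CommRingCat.ofHom (algebraMap ℂ (LaurentPolynomial ℂ)))

/-- `g` is a non-constant morphism over the complex numbers from the multiplicative group
to `U`. -/
structure IsGmMap (D : Set Y.Y) (g : Gm ⟶ Y.Y) : Prop where
  isOver : g ≫ Y.s = Gm.toSpec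
  inU : ∀ x, g x ∈ Y.U D
  nonconstant : ∃ x x', g x ≠ g x'

/-- Through a general point of `U` passes the image of a non-constant morphism from the
multiplicative group to `U`. -/
def Dominated (D : Set Y.Y) : Prop :=
  ∃ V : Y.Y.Opens, (V : Set Y.Y).Nonempty ∧ ∀ p ∈ V, IsClosed ({p} : Set Y.Y) → p ∈ Y.U D →
    ∃ g : Gm ⟶ Y.Y, Y.IsGmMap D g ∧ ∃ x, g x = p

/-- `U` is dominated by images of the multiplicative group, literally: there are a variety `T`
and a morphism from the product of `T` and the multiplicative group to `U`, non-constant on the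
fibres over the closed points of a nonempty open subset of `T`, with dense image. -/
def DominatedT (D : Set Y.Y) : Prop :=
  ∃ T : IntScheme, IsSeparated T.s ∧ LocallyOfFiniteType T.s ∧ QuasiCompact T.s ∧
    ∃ F : pullback T.s Gm.toSpec ⟶ Y.Y, F ≫ Y.s = pullback.fst T.s Gm.toSpec ≫ T.s ∧
      (∀ x, F x ∈ Y.U D) ∧ DenseRange F ∧
      ∃ V : T.Y.Opens, (V : Set T.Y).Nonempty ∧ ∀ t ∈ V, IsClosed ({t} : Set T.Y) →
        ∃ x x', pullback.fst T.s Gm.toSpec x = t ∧ pullback.fst T.s Gm.toSpec x' = t ∧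
          F x ≠ F x'

end IntScheme

/-- The question. -/
def Question : Prop :=
  ∀ (Y : IntScheme) (D : Set Y.Y), Y.LogCY D → Y.DominatedT D

end

end Pool.Agent.Helper36.LCY
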