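import Pool.Agent.Helper36.LCY.ClSum
import Pool.Agent.Helper99.LCY.CovStmts
import Pool.Agent.Helper51.LCY.G1
import Pool.Agent.Helper98.LCY.LocC
import Pool.Agent.Helper62.LCY.B2

/-! Row M3 of MP_f7e214_ag: the bound for the ratio. -/

open Polynomial Pool.Agent.Helper82.LCY

namespace LCY.H36

noncomputable section

open LCY

/-- The values of a nonzero function system have a minimum. -/
theorem exists_isMin {L : Type} [Field L] [Algebra ℂ L] {N : ℕ} {x : Fin (N + 1) → L}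
    (hnz : ∃ i, x i ≠ 0) (v : DVal L) : ∃ μ, IsMin x v μ := by
  classical
  obtain ⟨i0, hi0⟩ := hnz
  obtain ⟨i, hi, hmin⟩ := Finset.exists_min_image (Finset.univ.filter fun i => x i ≠ 0)
    (fun i => v.v (x i)) ⟨i0, by simpa using hi0⟩
  refine ⟨v.v (x i), fun j hj => hmin j (by simpa using hj), i, by simpa using hi, rfl⟩

/-- The weights at the curves through a point. -/
theorem wt_through {L : Type} [Field L] [Algebra ℂ L] {ω : Bracket L} {v : DVal L} {n : ℤ}
    (hW : WtProp ω v n) (Q : Coord L) (hx : v.Int Q.x) (hy : v.Int Q.y)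
    (hT : Through Q.loc v) : ω.br Q.x Q.y ≠ 0 ∧ v.v (ω.br Q.x Q.y) = - n := by
  refine ⟨Q.br_ne ω, ?_⟩
  have h := hW.b2 Q hx hy ?_
  · omega
  rintro ⟨⟨a, ha⟩, b, hb⟩
  obtain ⟨hI, z, hz, hz', hz0, hvz⟩ := hT
  have hunit : ∀ u : L, u ∈ Q.loc → u⁻¹ ∈ Q.loc → u ≠ 0 → v.v u = 0 :=
    fun u h1 h2 h3 => H98.nn_unit hI h3 h1 h2
  have hmx : ∀ (u : L) (c : ℂ), Q.Mx u → v.Pos (u - algebraMap ℂ L c) → c = 0 := by
    intro u c hu hp
    by_contra hc
    have h1 : Q.Mx ((u - algebraMap ℂ L c) - algebraMap ℂ L (-c)) := by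
      rw [map_neg, sub_neg_eq_add, sub_add_cancel]
      exact hu
    obtain ⟨h2, h4, h3⟩ := H98.unit_of_mx (neg_ne_zero.2 hc) h1
    have h5 := hunit _ h4 h3 h2
    rcases hp with h6 | h6
    · exact h2 h6
    · omega
  have hPx : v.Pos Q.x := by
    have h1 := hmx Q.x a (H98.mx_x Q) ha
    rwa [h1, map_zero, sub_zero] at ha
  have hPy : v.Pos Q.y := by
    have h1 := hmx Q.y b (H98.mx_y Q) hb
    rwa [h1, map_zero, sub_zero] at hb
  have hc : Centred Q.loc v :=
    H98.centred_iff.2 ⟨hPx.resolve_left Q.x_ne, hPy.resolve_left Q.y_ne⟩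
  have := hc.2 z hz hz0 hz'
  omega

theorem m3 (hB1 : ST_B1) (hB2 : ST_B2K) : ST_M3 := by
  intro L _ _ N ω x hA k T hS a h hh hcur l r hM
  obtain ⟨h', hh', hle⟩ := hM
  have hex : ∀ v, ∃ n, ω.Wt v n := fun v => H73.exists_wt hA.trdeg hA.fg ω v
  choose w hw using hex
  have huniq : ∀ v n, ω.Wt v n → n = w v := fun v n hn =>
    (H73.wt_all hA.trdeg hA.fg ω v (hw v)).2.2.2 n hn
  obtain ⟨hwD, hwK⟩ := hB2 L k T ω w hw
    (fun Q v h1 h2 h3 => wt_through (wtProp hA.trdeg hA.fg ω v (hw v)) Q h1 h2 h3)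
    (by
      rintro Q v ⟨P, hP, hord⟩
      have h1 : v.Same Q.ord := isOrd_iff.1 ⟨P, hP, hord⟩
      have h2 := H62.wt_ord ω Q
      have h3 := huniq v _ (H48.wt_same (fun z hz => (h1 z hz).symm) h2)
      rw [h1 _ (Q.br_ne ω)]
      omega)
  set R : L := h' ^ 3 / h ^ r with hR
  have hR0 : R ≠ 0 := div_ne_zero (pow_ne_zero _ hh') (zpow_ne_zero _ hh)
  have hvR : ∀ v : DVal L, v.v R = 3 * v.v h' - r * v.v h := by
    intro v
    rw [hR, v.map_div (pow_ne_zero _ hh') (zpow_ne_zero _ hh), v.map_pow hh', v.map_zpow hh]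
    push_cast
    ring
  obtain ⟨hRD, hRK⟩ := hB1 L k T R hR0
  obtain ⟨s, hs, hsw, hsR⟩ := exists_supp T hwD hRD
  rw [clD_eq_sum T _ s hs hsw] at hwK
  rw [clD_eq_sum T _ s hs hsR] at hRK
  by_contra hlt
  push Not at hlt
  have e1 : ∑ v ∈ s, (v.v R + (3 * l - r * a) * w v) * ip KK (T.cl v) =
      (3 * l - r * a) * ip (KK : Cl ℤ (Fin k)) KK := by
    have h1 : ∑ v ∈ s, v.v R * ip KK (T.cl v) = 0 := by
      have := congrArg (fun c => ip KK c) hRK
      simp only [ip_sum_right, ip_smul_right, ip_zero_right] at this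
      exact this
    have h2 : ∑ v ∈ s, w v * ip KK (T.cl v) = ip (KK : Cl ℤ (Fin k)) KK := by
      have := congrArg (fun c => ip KK c) hwK
      simp only [ip_sum_right, ip_smul_right] at this
      exact this
    rw [← h2, Finset.mul_sum]
    have h3 : ∀ v ∈ s, (v.v R + (3 * l - r * a) * w v) * ip KK (T.cl v) =
        v.v R * ip KK (T.cl v) + (3 * l - r * a) * (w v * ip KK (T.cl v)) := by
      intro v _
      ring
    rw [Finset.sum_congr rfl h3, Finset.sum_add_distrib, h1, zero_add]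
  have e2 : ∑ v ∈ s, (v.v R + (3 * l - r * a) * w v) * ip KK (T.cl v) ≤ 0 := by
    apply Finset.sum_nonpos
    intro v hv
    obtain ⟨hv0, hvC⟩ := hs v hv
    have hK := hS.nef v hvC
    by_cases hc : w v = 0 ∧ Contracted x v
    · have h1 := hS.con v hvC (by rw [← hc.1]; exact hw v) hc.2
      rw [h1, mul_zero]
    · apply mul_nonpos_of_nonneg_of_nonpos _ hK
      obtain ⟨μ, hμ⟩ := exists_isMin hA.nz v
      have h2 := hcur v hvC _ _ (hw v) hμ
      have h3 : ¬ Contracted x v ∨ w v = -1 := by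
        by_cases h4 : Contracted x v
        · right
          rcases hS.wt v hvC _ (hw v) with h5 | h5
          · exact absurd ⟨h5, h4⟩ hc
          · exact h5
        · exact Or.inl h4
      have h6 := hle v _ μ h3 (hw v) hμ
      rw [hvR]
      have h8 : r * (a * w v + v.v h) = r * (3 * μ) := by rw [h2]
      nlinarith [h8, h6]
  rw [e1] at e2
  have h7 : 0 < ip (KK : Cl ℤ (Fin k)) KK := KK_sq_pos (by
    rw [Fintype.card_fin]
    exact hS.le)
  nlinarith

end

end LCY.H36
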