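import Mathlib

/-! The normal ring of an affine chart (MP_f7e214_ag, row NR). -/

open Polynomial

namespace LCY

noncomputable section

/-- Algebraicity only depends on the image of the coefficient field. -/
theorem isAlgebraic_of_image {F₁ F₂ L : Type} [Field F₁] [Field F₂] [Field L] [Algebra F₁ L]
    [Algebra F₂ L] (h : ∀ a : F₁, ∃ b : F₂, algebraMap F₂ L b = algebraMap F₁ L a) {l : L}
    (hl : IsAlgebraic F₁ l) : IsAlgebraic F₂ l := by
  choose f hf using h
  obtain ⟨p, hp, hpl⟩ := hl
  refine ⟨∑ i ∈ Finset.range (p.natDegree + 1), C (f (p.coeff i)) * X ^ i, ?_, ?_⟩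
  · intro h0
    apply hp
    ext i
    by_cases hi : i ∈ Finset.range (p.natDegree + 1)
    · have h1 := congrArg (fun q => q.coeff i) h0
      simp only [finsetSum_coeff, coeff_C_mul, coeff_X_pow, coeff_zero] at h1
      rw [Finset.sum_eq_single i] at h1
      · simp only [if_true, mul_one] at h1
        have h2 : algebraMap F₁ L (p.coeff i) = 0 := by
          rw [← hf, h1, map_zero]
        rw [map_eq_zero] at h2
        rw [h2, coeff_zero]
      · intro j _ hj
        rw [if_neg (Ne.symm hj), mul_zero]
      · intro hi'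
        exact absurd hi hi'
    · rw [Finset.mem_range, not_lt] at hi
      rw [coeff_eq_zero_of_natDegree_lt (by omega), coeff_zero]
  · rw [map_sum]
    rw [aeval_eq_sum_range] at hpl
    rw [← hpl]
    refine Finset.sum_congr rfl fun i _ => ?_
    rw [map_mul, aeval_C, map_pow, aeval_X, hf, Algebra.smul_def]

variable {L : Type} [Field L] [Algebra ℂ L]

theorem exists_root_mem {R : Type} [CommRing R] [Algebra ℂ R] (Q : Ideal R) (hQ : Q.IsPrime)
    (t : R) : ∀ (n : ℕ) (p : ℂ[X]), p.natDegree ≤ n → p ≠ 0 → aeval t p ∈ Q →
      ∃ c : ℂ, t - algebraMap ℂ R c ∈ Q := by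
  intro n
  induction n with
  | zero =>
    intro p hp hne hv
    exfalso
    rw [eq_C_of_natDegree_eq_zero (Nat.le_zero.1 hp), aeval_C] at hv
    have hc : p.coeff 0 ≠ 0 := by
      intro h
      apply hne
      rw [eq_C_of_natDegree_eq_zero (Nat.le_zero.1 hp), h, C_0]
    exact hQ.ne_top (Ideal.eq_top_of_isUnit_mem _ hv ((IsUnit.mk0 _ hc).map _))
  | succ n ih =>
    intro p hp hne hv
    by_cases hd : p.natDegree = 0
    · exact ih p (by omega) hne hv
    obtain ⟨c, hc⟩ := IsAlgClosed.exists_root p (by
      intro h
      exact hd (natDegree_eq_of_degree_eq_some h))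
    obtain ⟨r, rfl⟩ := dvd_iff_isRoot.2 hc
    have hr : r ≠ 0 := right_ne_zero_of_mul hne
    have hx : (X - C c : ℂ[X]) ≠ 0 := X_sub_C_ne_zero c
    have hdeg : ((X - C c) * r).natDegree = 1 + r.natDegree := by
      rw [natDegree_mul hx hr, natDegree_X_sub_C]
    rw [map_mul] at hv
    rcases hQ.mem_or_mem hv with h | h
    · refine ⟨c, ?_⟩
      rw [map_sub, aeval_X, aeval_C] at h
      exact h
    · exact ih r (by omega) hr h

theorem exists_normal_ring
    (hfg : ∃ s : Finset L, IntermediateField.adjoin ℂ (s : Set L) = ⊤)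
    (htr : Algebra.trdeg ℂ L = 2) {ι : Type} [Finite ι] (z : ι → L)
    (halg : Algebra.IsAlgebraic (IntermediateField.adjoin ℂ (Set.range z)) L) :
    ∃ (R : Type) (_ : CommRing R) (_ : IsDomain R) (_ : Algebra ℂ R) (_ : Algebra R L)
      (_ : IsScalarTower ℂ R L) (_ : IsFractionRing R L),
      IsNoetherianRing R ∧ IsIntegrallyClosed R ∧
      (∀ j, ∃ a : R, algebraMap R L a = z j) ∧
      (∀ a : R, IsIntegral (Algebra.adjoin ℂ (Set.range z)) (algebraMap R L a)) ∧
      ∀ Q : Ideal R, Q.IsPrime → Q.height = 1 → ∃ t : R, ∀ P : ℂ[X], P ≠ 0 → aeval t P ∉ Q := by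
  classical
  set A := Algebra.adjoin ℂ (Set.range z) with hA
  have hft : Algebra.FiniteType ℂ A :=
    (Subalgebra.fg_iff_finiteType _).1 (Subalgebra.fg_def.2 ⟨Set.range z, Set.finite_range z, rfl⟩)
  obtain ⟨s, g, hginj, hgint⟩ := exists_integral_inj_algHom_of_fg ℂ A
  let P := MvPolynomial (Fin s) ℂ
  let φ : P →ₐ[ℂ] L := A.val.comp g
  have hφ : Function.Injective φ := by
    intro a b hab
    exact hginj (Subtype.val_injective hab)
  let _ : Algebra P L := φ.toRingHom.toAlgebra
  have hPL : ∀ p : P, algebraMap P L p = φ p := fun p => rfl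
  have : IsScalarTower ℂ P L := IsScalarTower.of_algebraMap_eq fun c => by
    rw [hPL]
    exact (φ.commutes c).symm
  have : FaithfulSMul P L := (faithfulSMul_iff_algebraMap_injective P L).2 hφ
  let K := FractionRing P
  let _ : Algebra K L := FractionRing.liftAlgebra P L
  have : IsScalarTower P K L := FractionRing.isScalarTower_liftAlgebra P L
  have : IsScalarTower ℂ K L := IsScalarTower.of_algebraMap_eq fun c => by
    rw [IsScalarTower.algebraMap_apply ℂ P K, ← IsScalarTower.algebraMap_apply P K L,
      ← IsScalarTower.algebraMap_apply ℂ P L]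
  -- elements of `A` are integral over `P`
  have hAint : ∀ a : A, IsIntegral P (a : L) := by
    intro a
    obtain ⟨p, hp, hpa⟩ := hgint a
    refine ⟨p, hp, ?_⟩
    have h1 : (algebraMap P L) = (A.val : A →+* L).comp (g : P →+* A) := rfl
    have h2 : eval₂ (g : P →+* A) a p = 0 := hpa
    have h3 := Polynomial.hom_eval₂ p (g : P →+* A) (A.val : A →+* L) a
    rw [h2, map_zero] at h3
    rw [h1]
    exact h3.symm
  have hzA : ∀ j, z j ∈ A := fun j => Algebra.subset_adjoin ⟨j, rfl⟩
  -- `L` is algebraic over `K`
  have hKalg : Algebra.IsAlgebraic K L := by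
    constructor
    intro l
    have h1 : IsAlgebraic (IntermediateField.adjoin K (Set.range z)) l := by
      refine isAlgebraic_of_image ?_ (halg.1 l)
      rintro ⟨a, ha⟩
      have h2 : IntermediateField.adjoin ℂ (Set.range z) ≤
          (IntermediateField.adjoin K (Set.range z)).restrictScalars ℂ := by
        rw [IntermediateField.adjoin_le_iff]
        intro w hw
        exact IntermediateField.subset_adjoin K (Set.range z) hw
      exact ⟨⟨a, h2 ha⟩, rfl⟩
    have h3 : Algebra.IsAlgebraic K (IntermediateField.adjoin K (Set.range z)) := by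
      apply IntermediateField.isAlgebraic_adjoin
      rintro _ ⟨j, rfl⟩
      exact (hAint ⟨z j, hzA j⟩).tower_top
    exact h1.restrictScalars K
  have hKfin : FiniteDimensional K L := by
    obtain ⟨S, hS⟩ := hfg
    have h1 : IntermediateField.adjoin K (S : Set L) = ⊤ := by
      rw [eq_top_iff]
      intro l _
      have h2 : IntermediateField.adjoin ℂ (S : Set L) ≤
          (IntermediateField.adjoin K (S : Set L)).restrictScalars ℂ := by
        rw [IntermediateField.adjoin_le_iff]
        intro w hw
        exact IntermediateField.subset_adjoin K (S : Set L) hw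
      have h3 : l ∈ IntermediateField.adjoin ℂ (S : Set L) := by rw [hS]; trivial
      exact h2 h3
    have h2 : FiniteDimensional K (IntermediateField.adjoin K (S : Set L)) :=
      IntermediateField.finiteDimensional_adjoin fun x _ => (hKalg.1 x).isIntegral
    rw [h1] at h2
    exact (IntermediateField.topEquiv (F := K) (E := L)).toLinearEquiv.finiteDimensional
  have : CharZero K := algebraRat.charZero K
  have : Algebra.IsSeparable K L := inferInstance
  -- `s = 2`
  have hs : s = 2 := by
    have h1 : AlgebraicIndependent ℂ (fun i : Fin s => φ (MvPolynomial.X i)) := by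
      rw [algebraicIndependent_iff_injective_aeval]
      have h2 : (MvPolynomial.aeval fun i : Fin s => φ (MvPolynomial.X i)) = φ := by
        ext i
        simp
      rw [h2]
      exact hφ
    have h2 : IsTranscendenceBasis ℂ (fun i : Fin s => φ (MvPolynomial.X i)) := by
      rw [h1.isTranscendenceBasis_iff_isAlgebraic]
      constructor
      intro l
      have h3 : IsAlgebraic P l := (IsFractionRing.isAlgebraic_iff P K L).2 (hKalg.1 l)
      obtain ⟨p, hp, hpl⟩ := h3
      have h4 : ∀ q : P, φ q ∈ Algebra.adjoin ℂ (Set.range fun i : Fin s =>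
          φ (MvPolynomial.X i)) := by
        intro q
        rw [Algebra.adjoin_range_eq_range_aeval]
        refine ⟨q, ?_⟩
        have h2 : (MvPolynomial.aeval fun i : Fin s => φ (MvPolynomial.X i)) = φ := by
          ext i
          simp
        exact DFunLike.congr_fun h2 q
      let ψ : P →+* Algebra.adjoin ℂ (Set.range fun i : Fin s => φ (MvPolynomial.X i)) :=
        (φ : P →+* L).codRestrict _ h4
      refine ⟨p.map ψ, ?_, ?_⟩
      · rw [Ne, Polynomial.map_eq_zero_iff]
        · exact hp
        · intro a b hab
          have hab2 := congrArg (fun w : Algebra.adjoin ℂ (Set.range fun i : Fin s =>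
            φ (MvPolynomial.X i)) => (w : L)) hab
          exact hφ hab2
      · rw [aeval_def, eval₂_map]
        exact hpl
    have h3 := h2.cardinalMk_eq_trdeg
    rw [htr, Cardinal.mk_fin] at h3
    exact_mod_cast h3
  subst hs
  have hnorm : IsIntegrallyClosed P := inferInstance
  have hR1 : IsNoetherianRing (integralClosure P L) :=
    IsIntegralClosure.isNoetherianRing P K L (integralClosure P L)
  have hR2 : IsFractionRing (integralClosure P L) L :=
    integralClosure.isFractionRing_of_finite_extension K L
  have hR3 : IsIntegrallyClosed (integralClosure P L) :=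
    integralClosure.isIntegrallyClosedOfFiniteExtension K
  refine ⟨integralClosure P L, inferInstance, inferInstance, inferInstance, inferInstance,
    inferInstance, hR2, hR1, hR3, ?_, ?_, ?_⟩
  · intro j
    exact ⟨⟨z j, hAint ⟨z j, hzA j⟩⟩, rfl⟩
  · intro a
    obtain ⟨p, hp, hpa⟩ := a.2
    refine ⟨p.map (g : P →+* A), hp.map _, ?_⟩
    rw [eval₂_map]
    exact hpa
  · intro Q hQ hQ1
    by_contra hcon
    push Not at hcon
    have hroot : ∀ t : integralClosure P L, ∃ c : ℂ, t - algebraMap ℂ _ c ∈ Q := by
      intro t
      obtain ⟨p, hp, hpt⟩ := hcon t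
      exact exists_root_mem Q hQ t p.natDegree p le_rfl hp hpt
    choose c hc using fun i : Fin 2 => hroot (algebraMap P (integralClosure P L)
      (MvPolynomial.X i))
    let q := Q.under P
    let σ : P →ₐ[ℂ] P := MvPolynomial.aeval
      (fun i => if i = 0 then MvPolynomial.C (c 0) else MvPolynomial.X i)
    have hσ0 : σ (MvPolynomial.X 0) = MvPolynomial.C (c 0) := by
      change MvPolynomial.aeval _ _ = _
      rw [MvPolynomial.aeval_X, if_pos rfl]
    have hσ1 : σ (MvPolynomial.X 1) = MvPolynomial.X 1 := by
      change MvPolynomial.aeval _ _ = _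
      rw [MvPolynomial.aeval_X, if_neg (by decide)]
    have hσC : ∀ a, σ (MvPolynomial.C a) = MvPolynomial.C a := fun a => σ.commutes a
    have hmem : ∀ i, (MvPolynomial.X i - MvPolynomial.C (c i) : P) ∈ q := by
      intro i
      change algebraMap P (integralClosure P L) _ ∈ Q
      have h1 := hc i
      rw [IsScalarTower.algebraMap_apply ℂ P (integralClosure P L), ← map_sub] at h1
      exact h1
    have hσ : ∀ f : P, f - σ f ∈ q := by
      have h1 : (Ideal.Quotient.mkₐ ℂ q).comp σ = Ideal.Quotient.mkₐ ℂ q := by
        apply MvPolynomial.algHom_ext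
        intro i
        simp only [AlgHom.comp_apply, σ, MvPolynomial.aeval_X]
        by_cases hi : i = 0
        · subst hi
          rw [if_pos rfl]
          have h2 := hmem 0
          rw [← Ideal.Quotient.eq_zero_iff_mem, map_sub, sub_eq_zero] at h2
          exact h2.symm
        · rw [if_neg hi]
      intro f
      rw [← Ideal.Quotient.eq_zero_iff_mem, map_sub, sub_eq_zero]
      exact (DFunLike.congr_fun h1 f).symm
    let p' : Ideal P := RingHom.ker σ
    have hp'p : p'.IsPrime := RingHom.ker_isPrime _
    have hlt : p' < q := by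
      refine lt_of_le_of_ne ?_ ?_
      · intro f hf
        have h1 := hσ f
        rw [RingHom.mem_ker.1 hf, sub_zero] at h1
        exact h1
      · intro h
        have h1 : (MvPolynomial.X 1 - MvPolynomial.C (c 1) : P) ∈ p' := by
          rw [h]
          exact hmem 1
        have h1 : σ (MvPolynomial.X 1 - MvPolynomial.C (c 1)) = 0 := h1
        rw [map_sub, hσ1, hσC] at h1
        have h2 := congrArg (MvPolynomial.eval (fun _ => c 1 + 1)) h1
        simp at h2
    have hp'bot : p' ≠ ⊥ := by
      intro h
      have h1 : (MvPolynomial.X 0 - MvPolynomial.C (c 0) : P) ∈ p' := by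
        change σ (MvPolynomial.X 0 - MvPolynomial.C (c 0)) = 0
        rw [map_sub, hσ0, hσC]
        exact sub_self _
      rw [h, Ideal.mem_bot] at h1
      have h2 := congrArg (MvPolynomial.eval (fun _ => c 0 + 1)) h1
      simp at h2
    obtain ⟨P', hP'Q, hP'p, hP'o⟩ := Ideal.exists_ideal_lt_liesOver_of_lt (p := p') (q := q) Q hlt
    have hP'1 : P'.height + 1 ≤ Q.height := Ideal.height_add_one_le_of_lt_of_isPrime hP'Q
    rw [hQ1] at hP'1
    have h2 : P'.height = 0 := by
      have h3 : P'.height + 1 ≤ 0 + 1 := by rw [zero_add]; exact hP'1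
      have h4 := (ENat.add_le_add_iff_right (by decide)).1 h3
      exact nonpos_iff_eq_zero.1 h4
    rw [Ideal.height_eq_zero_iff_eq_bot] at h2
    apply hp'bot
    rw [hP'o.over, h2]
    rw [eq_bot_iff]
    intro f hf
    have h3 : algebraMap P (integralClosure P L) f = 0 := hf
    have h4 := congrArg (algebraMap (integralClosure P L) L) h3
    rw [← IsScalarTower.algebraMap_apply P (integralClosure P L) L, map_zero] at h4
    exact hφ (by rw [map_zero]; exact h4)

end

end LCY
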