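import Pool.Agent.Helper48.LCY.Top
import Pool.Agent.Helper36.LCY.DVR
import Pool.Agent.Helper36.LCY.NRa
import Pool.Agent.Helper38.SPV.NORMAL

/-! Row NR of MP_f7e214_ag: normality of the affine charts. -/

open Polynomial

namespace LCY

noncomputable section

variable {L : Type} [Field L] [Algebra ℂ L]

/-- The divisorial valuation of a height one prime of a normal ring. -/
theorem exists_dval_of_prime {R : Type} [CommRing R] [IsDomain R] [Algebra ℂ R] [Algebra R L]
    [IsScalarTower ℂ R L] [IsFractionRing R L] [IsNoetherianRing R] [IsIntegrallyClosed R]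
    (Q : Ideal R) [hQ : Q.IsPrime] (hQ1 : Q.height = 1) (t : R)
    (ht : ∀ P : ℂ[X], P ≠ 0 → aeval t P ∉ Q) :
    ∃ v : DVal L, (∀ a : R, v.Int (algebraMap R L a)) ∧
      (∀ a : R, a ∈ Q ↔ v.Pos (algebraMap R L a)) ∧
      ∀ y : L, v.Int y ↔ ∃ a b : R, b ∉ Q ∧ y * algebraMap R L b = algebraMap R L a := by
  have hinj : Function.Injective (algebraMap R L) := IsFractionRing.injective R L
  have hle : Q.primeCompl ≤ nonZeroDivisors R := by
    intro b hb
    apply mem_nonZeroDivisors_of_ne_zero
    rintro rfl
    exact hb Q.zero_mem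
  let O := Localization.AtPrime Q
  have hunit : ∀ y : Q.primeCompl, IsUnit (algebraMap R L y) := fun y =>
    IsUnit.mk0 _ fun h => nonZeroDivisors.ne_zero (hle y.2) (hinj (by rw [h, map_zero]))
  let f : O →+* L := IsLocalization.lift (M := Q.primeCompl) hunit
  let _ : Algebra O L := f.toAlgebra
  have hfa : ∀ a : R, algebraMap O L (algebraMap R O a) = algebraMap R L a := fun a =>
    IsLocalization.lift_eq hunit a
  have _ : IsScalarTower R O L := IsScalarTower.of_algebraMap_eq fun a => (hfa a).symm
  have hdom : IsDomain O := IsLocalization.isDomain_localization hle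
  have hfrac : IsFractionRing O L :=
    IsFractionRing.isFractionRing_of_isDomain_of_isLocalization Q.primeCompl O L
  have hnoeth : IsNoetherianRing O := inferInstance
  have hclosed : IsIntegrallyClosed O :=
    isIntegrallyClosed_of_isLocalization O Q.primeCompl hle
  have hQbot : Q ≠ ⊥ := Ideal.ne_bot_of_height_eq_one hQ1
  have hmaxbot : IsLocalRing.maximalIdeal O ≠ ⊥ := by
    intro h
    obtain ⟨q, hq, hq0⟩ := Submodule.exists_mem_ne_zero_of_ne_bot hQbot
    have h1 : algebraMap R O q ∈ IsLocalRing.maximalIdeal O :=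
      (IsLocalization.AtPrime.to_map_mem_maximal_iff O Q q).2 hq
    rw [h, Ideal.mem_bot] at h1
    exact hq0 (hinj (by rw [← hfa, h1, map_zero, map_zero]))
  have hnf : ¬ IsField O := fun h => hmaxbot (IsLocalRing.isField_iff_maximalIdeal_eq.1 h)
  have hdvr : IsDiscreteValuationRing O := by
    have h := (IsDiscreteValuationRing.TFAE O hnf).out 0 3
    rw [h]
    refine ⟨hclosed, IsLocalRing.maximalIdeal O, ⟨hmaxbot, inferInstance⟩, ?_⟩
    rintro I ⟨hI, hIp⟩
    have hc : (I.comap (algebraMap R O)).IsPrime := Ideal.IsPrime.comap _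
    have hle2 : I.comap (algebraMap R O) ≤ Q := by
      intro a ha
      have h1 : algebraMap R O a ∈ IsLocalRing.maximalIdeal O :=
        IsLocalRing.le_maximalIdeal hIp.ne_top ha
      exact (IsLocalization.AtPrime.to_map_mem_maximal_iff O Q a).1 h1
    have hmap : (I.comap (algebraMap R O)).map (algebraMap R O) = I :=
      IsLocalization.map_under Q.primeCompl O I
    have heq : I.comap (algebraMap R O) = Q := by
      by_contra hne
      have h2 := Ideal.height_add_one_le_of_lt_of_isPrime (lt_of_le_of_ne hle2 hne)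
      rw [hQ1] at h2
      have h4 : (I.comap (algebraMap R O)).height = 0 := by
        have h3 : (I.comap (algebraMap R O)).height + 1 ≤ 0 + 1 := by rw [zero_add]; exact h2
        exact nonpos_iff_eq_zero.1 ((ENat.add_le_add_iff_right (by decide)).1 h3)
      rw [Ideal.height_eq_zero_iff_eq_bot] at h4
      apply hI
      rw [← hmap, h4, Ideal.map_bot]
    rw [← hmap, heq]
    exact Localization.AtPrime.map_eq_maximalIdeal
  have _ : IsScalarTower ℂ O L := IsScalarTower.of_algebraMap_eq fun c => by
    rw [IsScalarTower.algebraMap_apply ℂ R O, hfa, ← IsScalarTower.algebraMap_apply ℂ R L]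
  have htO : ∀ P : ℂ[X], P ≠ 0 → IsUnit (aeval (algebraMap R O t) P) := by
    intro P hP
    rw [aeval_algebraMap_apply]
    exact IsLocalization.map_units O (⟨aeval t P, ht P hP⟩ : Q.primeCompl)
  refine ⟨dvalOfDvr O L (algebraMap R O t) htO, ?_, ?_, ?_⟩
  · intro a
    rw [dvalOfDvr_int]
    exact ⟨algebraMap R O a, hfa a⟩
  · intro a
    rw [← hfa, dvalOfDvr_pos, IsLocalization.AtPrime.to_map_mem_maximal_iff O Q a]
  · intro y
    rw [dvalOfDvr_int]
    constructor
    · rintro ⟨b, rfl⟩
      obtain ⟨⟨a, s⟩, has⟩ := IsLocalization.surj Q.primeCompl b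
      refine ⟨a, s, s.2, ?_⟩
      rw [← hfa, ← map_mul, has, hfa]
    · rintro ⟨a, b, hb, hab⟩
      refine ⟨IsLocalization.mk' O a (⟨b, hb⟩ : Q.primeCompl), ?_⟩
      have hb0 : algebraMap R L b ≠ 0 := (hunit ⟨b, hb⟩).ne_zero
      have h1 : algebraMap O L (IsLocalization.mk' O a (⟨b, hb⟩ : Q.primeCompl)) *
          algebraMap R L b = algebraMap R L a := by
        have h2 := congrArg (algebraMap O L)
          (IsLocalization.mk'_spec O a (⟨b, hb⟩ : Q.primeCompl))
        rw [map_mul, hfa, hfa] at h2
        exact h2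
      exact mul_right_cancel₀ hb0 (h1.trans hab.symm)

/-- If all elements of `A` have constant residues at `v`, so do all integral elements. -/
theorem res_of_isIntegral (v : DVal L) {A : Subalgebra ℂ L}
    (hA : ∀ a ∈ A, ∃ c : ℂ, v.Pos (a - algebraMap ℂ L c)) {h : L} (hh : IsIntegral A h) :
    ∃ c : ℂ, v.Pos (h - algebraMap ℂ L c) := by
  have hAi : ∀ a ∈ A, v.Int a := by
    intro a ha
    obtain ⟨c, hc⟩ := hA a ha
    have h1 := v.int_add hc.int (v.int_const c)
    rwa [sub_add_cancel] at h1
  have hint : v.Int h := v.int_of_isIntegral (A := A) (fun a => hAi a a.2) hh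
  obtain ⟨p, hp, hph⟩ := hh
  choose c hc using fun a : A => hA a a.2
  -- the polynomial of the residues
  let q : ℂ[X] := ∑ i ∈ Finset.range p.natDegree, C (c (p.coeff i)) * X ^ i + X ^ p.natDegree
  have hq0 : q ≠ 0 := by
    intro h0
    have h1 := congrArg (fun r => r.coeff p.natDegree) h0
    simp only [q, coeff_add, finsetSum_coeff, coeff_C_mul, coeff_X_pow, coeff_zero,
      if_true] at h1
    rw [Finset.sum_eq_zero] at h1
    · norm_num at h1
    · intro j hj
      rw [Finset.mem_range] at hj
      rw [if_neg (by omega), mul_zero]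
  have hqv : v.Pos (aeval h q) := by
    have h1 : aeval h q = ∑ i ∈ Finset.range p.natDegree,
        -(((p.coeff i : A) : L) - algebraMap ℂ L (c (p.coeff i))) * h ^ i := by
      have h2 : (∑ i ∈ Finset.range p.natDegree, ((p.coeff i : A) : L) * h ^ i) +
          h ^ p.natDegree = 0 := by
        rw [eval₂_eq_sum_range, Finset.sum_range_succ] at hph
        have h3 : p.coeff p.natDegree = 1 := hp
        rw [h3, map_one, one_mul] at hph
        exact hph
      simp only [q, map_add, map_sum, map_mul, aeval_C, map_pow, aeval_X]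
      have h4 : h ^ p.natDegree = - ∑ i ∈ Finset.range p.natDegree,
          ((p.coeff i : A) : L) * h ^ i := eq_neg_of_add_eq_zero_right h2
      rw [h4, ← Finset.sum_neg_distrib, ← Finset.sum_add_distrib]
      exact Finset.sum_congr rfl fun i _ => by ring
    rw [h1]
    have h5 : ∀ s : Finset ℕ, v.Pos (∑ i ∈ s,
        -(((p.coeff i : A) : L) - algebraMap ℂ L (c (p.coeff i))) * h ^ i) := by
      intro s
      induction s using Finset.induction_on with
      | empty => exact Or.inl (by simp)
      | insert i s hi ih =>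
        rw [Finset.sum_insert hi]
        exact v.pos_add (v.pos_mul_int (v.pos_neg (hc _)) (v.int_pow hint _)) ih
    exact h5 _
  -- some root is the residue
  have key : ∀ (n : ℕ) (r : ℂ[X]), r.natDegree ≤ n → r ≠ 0 → v.Pos (aeval h r) →
      ∃ c : ℂ, v.Pos (h - algebraMap ℂ L c) := by
    intro n
    induction n with
    | zero =>
      intro r hr hne hv
      exfalso
      rw [eq_C_of_natDegree_eq_zero (Nat.le_zero.1 hr), aeval_C] at hv
      have hc : r.coeff 0 ≠ 0 := by
        intro h
        apply hne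
        rw [eq_C_of_natDegree_eq_zero (Nat.le_zero.1 hr), h, C_0]
      rcases hv with h0 | h0
      · rw [map_eq_zero] at h0
        exact hc h0
      · rw [v.map_const _ hc] at h0
        exact lt_irrefl _ h0
    | succ n ih =>
      intro r hr hne hv
      by_cases hd : r.natDegree = 0
      · exact ih r (by omega) hne hv
      obtain ⟨c, hc⟩ := IsAlgClosed.exists_root r (by
        intro h
        exact hd (natDegree_eq_of_degree_eq_some h))
      obtain ⟨u, rfl⟩ := dvd_iff_isRoot.2 hc
      have hu : u ≠ 0 := right_ne_zero_of_mul hne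
      have hx : (X - C c : ℂ[X]) ≠ 0 := X_sub_C_ne_zero c
      have hdeg : ((X - C c) * u).natDegree = 1 + u.natDegree := by
        rw [natDegree_mul hx hu, natDegree_X_sub_C]
      rw [map_mul] at hv
      have h1 : v.Int (aeval h (X - C c : ℂ[X])) := v.int_aeval hint _
      rcases v.pos_or_pos h1 (v.int_aeval hint u) hv with h2 | h2
      · refine ⟨c, ?_⟩
        rw [map_sub, aeval_X, aeval_C] at h2
        exact h2
      · exact ih u (by omega) hu h2
  exact key _ q le_rfl hq0 hqv

/-- The elements of the algebra generated by elements with constant residues have constant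
residues. -/
theorem res_adjoin (v : DVal L) {S : Set L}
    (hS : ∀ a ∈ S, ∃ c : ℂ, v.Pos (a - algebraMap ℂ L c)) :
    ∀ a ∈ Algebra.adjoin ℂ S, ∃ c : ℂ, v.Pos (a - algebraMap ℂ L c) := by
  intro a ha
  induction ha using Algebra.adjoin_induction with
  | mem a ha => exact hS a ha
  | algebraMap c => exact ⟨c, Or.inl (sub_self _)⟩
  | add a b _ _ iha ihb =>
    obtain ⟨c, hc⟩ := iha
    obtain ⟨d, hd⟩ := ihb
    refine ⟨c + d, ?_⟩
    rw [map_add, add_sub_add_comm]
    exact v.pos_add hc hd
  | mul a b _ _ iha ihb =>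
    obtain ⟨c, hc⟩ := iha
    obtain ⟨d, hd⟩ := ihb
    refine ⟨c * d, ?_⟩
    have h1 : a * b - algebraMap ℂ L (c * d) = (a - algebraMap ℂ L c) * b +
        (b - algebraMap ℂ L d) * algebraMap ℂ L c := by
      rw [map_mul]
      ring
    rw [h1]
    have hb : v.Int b := by
      have h2 := v.int_add hd.int (v.int_const d)
      rwa [sub_add_cancel] at h2
    exact v.pos_add (v.pos_mul_int hc hb) (v.pos_mul_int hd (v.int_const c))

theorem nr_main {N : ℕ} (x : Fin (N + 1) → L)
    (hfg : ∃ s : Finset L, IntermediateField.adjoin ℂ (s : Set L) = ⊤)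
    (htr : Algebra.trdeg ℂ L = 2) (i : Fin (N + 1)) (hi : x i ≠ 0)
    (halg : Algebra.IsAlgebraic (IntermediateField.adjoin ℂ (Set.range fun j => x j / x i)) L) :
    (∀ h : L, (∀ v : DVal L, ¬ Contracted x v → (∀ j, v.Int (x j / x i)) → v.Int h) →
      IsIntegral (Algebra.adjoin ℂ (Set.range fun j => x j / x i)) h) ∧
    (∀ z : L, ∃ a b : L, b ≠ 0 ∧ z = a / b ∧
      IsIntegral (Algebra.adjoin ℂ (Set.range fun j => x j / x i)) a ∧
      IsIntegral (Algebra.adjoin ℂ (Set.range fun j => x j / x i)) b) := by
  obtain ⟨R, _, _, _, _, _, hfrac, hnoeth, hclosed, hz, hint, hht⟩ :=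
    exists_normal_ring hfg htr (fun j => x j / x i) halg
  have hinj : Function.Injective (algebraMap R L) := IsFractionRing.injective R L
  constructor
  · intro h hh
    obtain ⟨r, hr⟩ := Pool.Agent.Helper38.SPV.hartogs R L h (by
      intro Q hQ hQ1
      obtain ⟨t, ht⟩ := hht Q hQ hQ1
      obtain ⟨v, hv1, hv2, hv3⟩ := exists_dval_of_prime (L := L) Q hQ1 t ht
      have hvz : ∀ j, v.Int (x j / x i) := by
        intro j
        obtain ⟨a, ha⟩ := hz j
        rw [← ha]
        exact hv1 a
      have hnc : ¬ Contracted x v := by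
        intro hc
        have h1 := res_adjoin v (S := Set.range fun j => x j / x i) (by
          rintro _ ⟨j, rfl⟩
          exact hc i hi hvz j)
        obtain ⟨c, hc2⟩ := res_of_isIntegral v h1 (hint t)
        have h2 : algebraMap R L (aeval t (X - C c : ℂ[X])) =
            algebraMap R L t - algebraMap ℂ L c := by
          rw [map_sub, map_sub, aeval_X, aeval_C, ← IsScalarTower.algebraMap_apply ℂ R L]
        rw [← h2, ← hv2] at hc2
        exact ht _ (X_sub_C_ne_zero c) hc2
      obtain ⟨a, b, hb, hab⟩ := (hv3 h).1 (hh v hnc hvz)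
      exact ⟨a, b, hb, by rw [mul_comm]; exact hab⟩)
    rw [← hr]
    exact hint r
  · intro z
    obtain ⟨a, b, hb, hab⟩ := IsFractionRing.div_surjective (A := R) z
    refine ⟨algebraMap R L a, algebraMap R L b, ?_, hab.symm, hint a, hint b⟩
    intro h0
    exact nonZeroDivisors.ne_zero hb (hinj (by rw [h0, map_zero]))

/-- **Row NR.** -/
theorem nr : ST_NR := by
  intro L _ _ N x hfg htr i hi halg
  obtain ⟨h1, h2⟩ := nr_main x hfg htr i hi halg
  have hA : ∀ v : DVal L, (∀ j, v.Int (x j / x i)) →
      ∀ a ∈ Algebra.adjoin ℂ (Set.range fun j => x j / x i), v.Int a := by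
    intro v hv a ha
    induction ha using Algebra.adjoin_induction with
    | mem a ha =>
      obtain ⟨j, rfl⟩ := ha
      exact hv j
    | algebraMap c => exact v.int_const c
    | add a b _ _ iha ihb => exact v.int_add iha ihb
    | mul a b _ _ iha ihb => exact v.int_mul iha ihb
  refine ⟨?_, ?_⟩
  · intro h hh v hv
    have hi1 := h1 h hh
    refine ⟨v.int_of_isIntegral (A := Algebra.adjoin ℂ (Set.range fun j => x j / x i)) (fun a => hA v hv a a.2) hi1, fun hc => ?_⟩
    exact res_of_isIntegral v (res_adjoin v (by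
      rintro _ ⟨j, rfl⟩
      exact hc i hi hv j)) hi1
  · intro z
    obtain ⟨a, b, hb, hab, ha1, hb1⟩ := h2 z
    exact ⟨a, b, hb, hab, fun v hv => v.int_of_isIntegral (A := Algebra.adjoin ℂ (Set.range fun j => x j / x i)) (fun a => hA v hv a a.2) ha1,
      fun v hv => v.int_of_isIntegral (A := Algebra.adjoin ℂ (Set.range fun j => x j / x i)) (fun a => hA v hv a a.2) hb1⟩

end

end LCY
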