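import Pool.Agent.Helper36.LCY.Cone

/-! Row P2N of MP_f7e214_ag: tangent lines of a cubic in Weierstrass form. -/

open Polynomial

namespace LCY.H36

noncomputable section

open LCY

variable {K : Type} [Field K] [Algebra ℂ K]

/-- The tangent line at the generic point contains no constant point. -/
theorem tangent_const {u₀ w₀ : K} (hu : Transcendental ℂ u₀) {A B : ℂ}
    (hw : w₀ ^ 2 = u₀ ^ 3 + algebraMap ℂ K A * u₀ + algebraMap ℂ K B) (a b : ℂ) :
    2 * w₀ * algebraMap ℂ K b ≠ 2 * w₀ ^ 2 +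
      (3 * u₀ ^ 2 + algebraMap ℂ K A) * (algebraMap ℂ K a - u₀) := by
  intro h
  have h1 : aeval u₀ ((C (-1) * X ^ 3 + C (3 * a) * X ^ 2 + C A * X + C (2 * B + A * a)) ^ 2 -
      C (4 * b ^ 2) * (X ^ 3 + C A * X + C B) : ℂ[X]) = 0 := by
    simp only [map_sub, map_add, map_mul, map_pow, aeval_C, aeval_X, map_neg, map_one,
      map_ofNat]
    rw [hw] at h
    have h2 : (2 * w₀ * algebraMap ℂ K b) ^ 2 = 4 * algebraMap ℂ K b ^ 2 *
        (u₀ ^ 3 + algebraMap ℂ K A * u₀ + algebraMap ℂ K B) := by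
      rw [← hw]
      ring
    rw [h] at h2
    linear_combination h2
  refine hu ⟨_, ?_, h1⟩
  intro h2
  have h3 := congrArg (fun r => r.natDegree) h2
  have h4 : ((C (-1) * X ^ 3 + C (3 * a) * X ^ 2 + C A * X + C (2 * B + A * a)) ^ 2 -
      C (4 * b ^ 2) * (X ^ 3 + C A * X + C B) : ℂ[X]).natDegree = 6 := by
    compute_degree!
  rw [h4] at h3
  simp at h3

theorem slope_const {u₀ w₀ : K} (hu : Transcendental ℂ u₀) {A B : ℂ}
    (hw : w₀ ^ 2 = u₀ ^ 3 + algebraMap ℂ K A * u₀ + algebraMap ℂ K B) (m : ℂ) :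
    2 * w₀ * algebraMap ℂ K m ≠ 3 * u₀ ^ 2 + algebraMap ℂ K A := by
  intro h
  have h1 : aeval u₀ ((C 3 * X ^ 2 + C A) ^ 2 -
      C (4 * m ^ 2) * (X ^ 3 + C A * X + C B) : ℂ[X]) = 0 := by
    simp only [map_sub, map_add, map_mul, map_pow, aeval_C, aeval_X, map_ofNat]
    have h2 : (2 * w₀ * algebraMap ℂ K m) ^ 2 = 4 * algebraMap ℂ K m ^ 2 *
        (u₀ ^ 3 + algebraMap ℂ K A * u₀ + algebraMap ℂ K B) := by
      rw [← hw]
      ring
    rw [h] at h2
    linear_combination h2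
  refine hu ⟨_, ?_, h1⟩
  intro h2
  have h3 := congrArg (fun r => r.natDegree) h2
  have h4 : ((C 3 * X ^ 2 + C A) ^ 2 -
      C (4 * m ^ 2) * (X ^ 3 + C A * X + C B) : ℂ[X]).natDegree = 4 := by
    compute_degree!
  rw [h4] at h3
  simp at h3

theorem flex_const {u₀ w₀ : K} (hu : Transcendental ℂ u₀) {A B : ℂ}
    (hw : w₀ ^ 2 = u₀ ^ 3 + algebraMap ℂ K A * u₀ + algebraMap ℂ K B) :
    (3 * u₀ ^ 2 + algebraMap ℂ K A) ^ 2 ≠ 12 * u₀ * w₀ ^ 2 := by
  intro h
  have h1 : aeval u₀ (C (-3) * X ^ 4 - C (6 * A) * X ^ 2 - C (12 * B) * X + C (A ^ 2) : ℂ[X]) =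
      0 := by
    simp only [map_sub, map_add, map_mul, map_pow, aeval_C, aeval_X, map_ofNat, map_neg]
    rw [hw] at h
    linear_combination h
  refine hu ⟨_, ?_, h1⟩
  intro h2
  have h3 := congrArg (fun r => r.natDegree) h2
  have h4 : (C (-3) * X ^ 4 - C (6 * A) * X ^ 2 - C (12 * B) * X + C (A ^ 2) : ℂ[X]).natDegree =
      4 := by
    compute_degree!
  rw [h4] at h3
  simp at h3

theorem p2n_gen [IsAlgClosed K] [CharZero K] (u₀ w₀ : K) (hu : Transcendental ℂ u₀) (A B : ℂ)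
    (hw : w₀ ^ 2 = u₀ ^ 3 + algebraMap ℂ K A * u₀ + algebraMap ℂ K B)
    (hPT : ST_PT) (L : Type) [Field L] [Algebra ℂ L] (N : ℕ) (ω : Bracket L)
    (x : Fin (N + 1) → L) (Q Q' : Coord L) (hPL : ∀ (Q : Coord L) (f : ℂ[X][X]),
      Irreducible f → ∃ v : DVal L, IsPlaceOf Q f v ∧ v.v (ev Q.x Q.y f) = 1)
    (hx' : Q'.x = Q.x / Q.y) (hy' : Q'.y = Q.y⁻¹)
    (H1 : ∀ (g : ℂ[X][X]) (v : DVal L), Irreducible g →
      ¬ g ∣ (X ^ 2 - C (X ^ 3 + C A * X + C B)) → IsPlaceOf Q g v → CYp ω x v)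
    (H2 : ∀ v : DVal L, IsPlaceOf Q' X v → CYp ω x v) : Fam ω x := by
  have h2K : (2 : K) ≠ 0 := two_ne_zero
  have hw0 : w₀ ≠ 0 := by
    intro h
    have h1 := slope_const hu hw 0
    have h2 := flex_const hu hw
    have h3 : aeval u₀ (X ^ 3 + C A * X + C B : ℂ[X]) = 0 := by
      simp only [map_add, map_mul, map_pow, aeval_C, aeval_X]
      rw [← hw, h]
      ring
    refine hu ⟨_, ?_, h3⟩
    intro h4
    have h5 := congrArg (fun r => r.coeff 3) h4
    simp at h5
  set m : K := (3 * u₀ ^ 2 + algebraMap ℂ K A) / (2 * w₀) with hm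
  have hm2 : 2 * w₀ * m = 3 * u₀ ^ 2 + algebraMap ℂ K A := by
    rw [hm]
    field_simp
  have hmc : ∀ c : ℂ, m ≠ algebraMap ℂ K c := by
    intro c hc
    exact slope_const hu hw c (by rw [← hc, hm2])
  have hm0 : m ≠ 0 := by
    intro h
    exact hmc 0 (by rw [h, map_zero])
  set δ : K := m ^ 2 - 3 * u₀ with hδ
  have hδ0 : δ ≠ 0 := by
    intro h
    apply flex_const hu hw
    rw [← hm2]
    have h1 : m ^ 2 = 3 * u₀ := sub_eq_zero.1 h
    linear_combination (4 * w₀ ^ 2) * h1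
  let am := algebraMap K[X] (RatFunc K)
  have hamX : am (X - C 1) ≠ 0 := by
    intro h
    exact X_sub_C_ne_zero (1 : K) (by simpa only [am, FaithfulSMul.algebraMap_eq_zero_iff] using h)
  let lam : RatFunc K := am X / am (X - C 1)
  let xs : RatFunc K := RatFunc.C u₀ + RatFunc.C δ * lam
  let ys : RatFunc K := RatFunc.C w₀ + RatFunc.C (m * δ) * lam
  have hlv : ∀ c : K, c ≠ 1 → ValAt c lam (c / (c - 1)) := by
    intro c hc
    have h1 := valAt_div X (X - C 1) (c := c) (by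
      rw [eval_sub, eval_X, eval_C]
      exact sub_ne_zero.2 hc)
    rw [eval_sub, eval_X, eval_C] at h1
    exact h1
  have hxv : ∀ c : K, c ≠ 1 → ValAt c xs (u₀ + δ * (c / (c - 1))) := fun c hc =>
    valAt_add (valAt_C c _) (valAt_mul (valAt_C c _) (hlv c hc))
  have hyv : ∀ c : K, c ≠ 1 → ValAt c ys (w₀ + m * δ * (c / (c - 1))) := fun c hc =>
    valAt_add (valAt_C c _) (valAt_mul (valAt_C c _) (hlv c hc))
  have hinj : ∀ f : ℂ[X][X], ev xs ys f = 0 → f = 0 := by
    intro f hf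
    have key : ∀ l : ℂ, algebraMap ℂ K l ≠ u₀ + δ → f.map (evalRingHom l) = 0 := by
      intro l hl
      set μ : K := (algebraMap ℂ K l - u₀) / δ with hμ
      have hμδ : δ * μ = algebraMap ℂ K l - u₀ := by
        rw [hμ, mul_div_cancel₀ _ hδ0]
      have hμ1 : μ - 1 ≠ 0 := by
        intro h
        apply hl
        have h1 : μ = 1 := sub_eq_zero.1 h
        rw [h1, mul_one] at hμδ
        rw [hμδ]
        ring
      set c : K := μ / (μ - 1) with hc
      have hc1 : c - 1 = 1 / (μ - 1) := by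
        rw [hc]
        field_simp
        ring
      have hc1' : c ≠ 1 := by
        intro h
        rw [h, sub_self] at hc1
        exact one_div_ne_zero hμ1 hc1.symm
      have hcμ : c / (c - 1) = μ := by
        rw [hc1, hc]
        field_simp
      have h1 := hxv c hc1'
      have h2 := hyv c hc1'
      rw [hcμ] at h1 h2
      have e1 : u₀ + δ * μ = algebraMap ℂ K l := by rw [hμδ]; ring
      rw [e1] at h1
      have h3 := valAt_ev h1 h2 f
      rw [hf] at h3
      have h4 := valAt_zero_eq h3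
      refine map_eq_zero_of_trans ?_ h4
      rintro ⟨e, he⟩
      apply tangent_const hu hw l e
      rw [← he, ← hm2, ← hμδ]
      ring
    ext j : 1
    rw [coeff_zero]
    by_contra hj
    have hfin : ({l : ℂ | algebraMap ℂ K l = u₀ + δ} ∪ {l | (f.coeff j).IsRoot l}).Finite := by
      refine Set.Finite.union ?_ ?_
      · apply Set.Subsingleton.finite
        intro l hl l' hl'
        have hl1 : algebraMap ℂ K l = u₀ + δ := hl
        have hl2 : algebraMap ℂ K l' = u₀ + δ := hl'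
        exact (algebraMap ℂ K).injective (hl1.trans hl2.symm)
      · exact Polynomial.finite_setOfPred_isRoot hj
    refine Set.infinite_univ (α := ℂ) (hfin.subset fun l _ => ?_)
    by_cases h1 : algebraMap ℂ K l = u₀ + δ
    · exact Or.inl h1
    right
    have h3 := key l h1
    have h4 := congrArg (fun r => r.coeff j) h3
    simpa using h4
  obtain ⟨i, hix, hiy, hiev⟩ := exists_coord_hom Q xs ys hinj
  refine ⟨K, inferInstance, inferInstance, i, ⟨Q.x, ?_⟩, ?_⟩
  · intro c hc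
    rw [hix] at hc
    have h1 := hxv 0 zero_ne_one
    have h2 := hxv 2 (by norm_num)
    rw [hc] at h1 h2
    have h3 : ValAt 0 (0 : RatFunc K) (c - (u₀ + δ * (0 / (0 - 1)))) := by
      have h4 := valAt_add (valAt_C (0 : K) c) (valAt_mul (valAt_C (0 : K) (-1)) h1)
      have e1 : RatFunc.C c + RatFunc.C (-1) * RatFunc.C c = (0 : RatFunc K) := by
        rw [map_neg, map_one]
        ring
      rw [e1] at h4
      have e2 : c + -1 * (u₀ + δ * (0 / (0 - 1))) = c - (u₀ + δ * (0 / (0 - 1))) := by ring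
      rw [e2] at h4
      exact h4
    have h3' : ValAt 2 (0 : RatFunc K) (c - (u₀ + δ * (2 / (2 - 1)))) := by
      have h4 := valAt_add (valAt_C (2 : K) c) (valAt_mul (valAt_C (2 : K) (-1)) h2)
      have e1 : RatFunc.C c + RatFunc.C (-1) * RatFunc.C c = (0 : RatFunc K) := by
        rw [map_neg, map_one]
        ring
      rw [e1] at h4
      have e2 : c + -1 * (u₀ + δ * (2 / (2 - 1))) = c - (u₀ + δ * (2 / (2 - 1))) := by ring
      rw [e2] at h4
      exact h4
    have h5 := valAt_zero_eq h3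
    have h6 := valAt_zero_eq h3'
    have h7 : δ * 2 = 0 := by
      have e3 : (2 : K) / (2 - 1) = 2 := by norm_num
      rw [e3] at h6
      rw [zero_div, mul_zero] at h5
      linear_combination h5 - h6
    exact mul_ne_zero hδ0 h2K h7
  intro P hP hPX
  obtain ⟨c, hc0, hreg⟩ := regAtT_point P hP hPX
  simp only [hreg]
  by_cases hc1 : c = 1
  · -- the point at infinity
    subst hc1
    have hden : (C (w₀) * (X - C 1) + C (m * δ) * X : K[X]).eval 1 ≠ 0 := by
      simp only [eval_add, eval_mul, eval_C, eval_sub, eval_X, sub_self, mul_zero, zero_add,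
        mul_one]
      exact mul_ne_zero hm0 hδ0
    have hys : ys = am (C (w₀) * (X - C 1) + C (m * δ) * X) / am (X - C 1) := by
      have e1 : am (C w₀) = RatFunc.C w₀ := RatFunc.algebraMap_C _
      have e2 : am (C (m * δ)) = RatFunc.C (m * δ) := RatFunc.algebraMap_C _
      have e3 : am (C (w₀) * (X - C 1) + C (m * δ) * X) =
          RatFunc.C w₀ * am (X - C 1) + RatFunc.C (m * δ) * am X := by
        rw [map_add, map_mul am, map_mul am, e1, e2]
      rw [e3]
      change RatFunc.C w₀ + RatFunc.C (m * δ) * (am X / am (X - C 1)) = _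
      field_simp
    have hxs : xs = am (C (u₀) * (X - C 1) + C δ * X) / am (X - C 1) := by
      have e1 : am (C u₀) = RatFunc.C u₀ := RatFunc.algebraMap_C _
      have e2 : am (C δ) = RatFunc.C δ := RatFunc.algebraMap_C _
      have e3 : am (C (u₀) * (X - C 1) + C δ * X) =
          RatFunc.C u₀ * am (X - C 1) + RatFunc.C δ * am X := by
        rw [map_add, map_mul am, map_mul am, e1, e2]
      rw [e3]
      change RatFunc.C u₀ + RatFunc.C δ * (am X / am (X - C 1)) = _
      field_simp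
    have hxy : xs / ys = am (C (u₀) * (X - C 1) + C δ * X) /
        am (C (w₀) * (X - C 1) + C (m * δ) * X) := by
      rw [hxs, hys]
      exact div_div_div_cancel_right₀ hamX _ _
    have hyi : ys⁻¹ = am (X - C 1) / am (C (w₀) * (X - C 1) + C (m * δ) * X) := by
      rw [hys, inv_div]
    have hv1 : ValAt 1 (xs / ys) m⁻¹ := by
      rw [hxy]
      have h1 := valAt_div (C (u₀) * (X - C 1) + C δ * X)
        (C (w₀) * (X - C 1) + C (m * δ) * X) hden
      have e1 : (C (u₀) * (X - C 1) + C δ * X : K[X]).eval 1 /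
          (C (w₀) * (X - C 1) + C (m * δ) * X : K[X]).eval 1 = m⁻¹ := by
        simp only [eval_add, eval_mul, eval_C, eval_sub, eval_X, sub_self, mul_zero, zero_add,
          mul_one]
        field_simp
      rw [e1] at h1
      exact h1
    have hv2 : ValAt 1 ys⁻¹ 0 := by
      rw [hyi]
      have h1 := valAt_div (X - C 1) (C (w₀) * (X - C 1) + C (m * δ) * X) hden
      have e1 : (X - C 1 : K[X]).eval 1 /
          (C (w₀) * (X - C 1) + C (m * δ) * X : K[X]).eval 1 = 0 := by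
        simp only [eval_sub, eval_X, eval_C, sub_self, zero_div]
      rw [e1] at h1
      exact h1
    have hiQx : i Q'.x = xs / ys := by rw [hx', map_div₀, hix, hiy]
    have hiQy : i Q'.y = ys⁻¹ := by rw [hy', map_inv₀, hiy]
    have hnc : ¬ ∃ a : ℂ, m⁻¹ = algebraMap ℂ K a := by
      rintro ⟨a, ha⟩
      apply hmc a⁻¹
      rw [map_inv₀, ← ha, inv_inv]
    rcases hPT L Q' K i 1 _ _ (by rw [hiQx]; exact hv1) (by rw [hiQy]; exact hv2)
      (fun h => hnc h.1) with h1 | ⟨f, hf, hf0, hfv⟩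
    · exact Or.inl h1
    · right
      obtain ⟨v, hv, -⟩ := hPL Q' f hf
      have hdvd : (X : ℂ[X][X]) ∣ f := by
        rw [X_dvd_iff]
        by_contra hne
        have e1 : ev m⁻¹ 0 f = aeval m⁻¹ (f.coeff 0) := by
          rw [ev_apply, eval₂_at_zero]
          rfl
        rw [e1] at hf0
        exact hnc (const_of_isAlgebraic ⟨_, hne, hf0⟩)
      obtain ⟨u, hu'⟩ := hdvd
      have hnu : ¬ IsUnit (X : ℂ[X][X]) := not_isUnit_X
      have huu : IsUnit u := (hf.isUnit_or_isUnit hu').resolve_left hnu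
      have hvu : v.v (ev Q'.x Q'.y u) = 0 :=
        hv.2 u fun h => hf.not_isUnit (isUnit_of_dvd_unit h huu)
      have hpl : IsPlaceOf Q' X v := by
        constructor
        · have h5 := hv.1
          rw [hu', map_mul, v.map_mul _ _ (Q'.ne X_ne_zero) (Q'.ne huu.ne_zero), hvu,
            add_zero] at h5
          exact h5
        · intro g hg
          apply hv.2 g
          intro h6
          exact hg ((Dvd.intro u hu'.symm).trans h6)
      obtain ⟨h7, h8⟩ := H2 v hpl
      exact ⟨v, h7, h8, hfv v hv⟩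
  · -- a finite point
    have hcs : c - 1 ≠ 0 := sub_ne_zero.2 hc1
    set μ : K := c / (c - 1) with hμ
    have hμ0 : μ ≠ 0 := div_ne_zero hc0 hcs
    have hμ1 : 1 - μ ≠ 0 := by
      have e1 : 1 - μ = -1 / (c - 1) := by
        rw [hμ]
        field_simp
        ring
      rw [e1]
      exact div_ne_zero (by norm_num) hcs
    have hxc := hxv c hc1
    have hyc := hyv c hc1
    rw [← hμ] at hxc hyc
    have hncc : ¬ ((∃ a : ℂ, u₀ + δ * μ = algebraMap ℂ K a) ∧
        ∃ b : ℂ, w₀ + m * δ * μ = algebraMap ℂ K b) := by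
      rintro ⟨⟨a, ha⟩, ⟨b, hb⟩⟩
      apply tangent_const hu hw a b
      rw [← hb, ← ha, ← hm2]
      ring
    have hfne : ev (u₀ + δ * μ) (w₀ + m * δ * μ) (X ^ 2 - C (X ^ 3 + C A * X + C B)) ≠ 0 := by
      have e1 : ev (u₀ + δ * μ) (w₀ + m * δ * μ) (X ^ 2 - C (X ^ 3 + C A * X + C B)) =
          δ ^ 3 * μ ^ 2 * (1 - μ) := by
        rw [map_sub, map_pow, ev_X, ev_C]
        simp only [map_add, map_mul, map_pow, aeval_X, aeval_C]
        have h1 : 2 * w₀ * m = 3 * u₀ ^ 2 + algebraMap ℂ K A := hm2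
        rw [hδ]
        linear_combination hw + (m ^ 2 - 3 * u₀) * μ * h1
      rw [e1]
      exact mul_ne_zero (mul_ne_zero (pow_ne_zero 3 hδ0) (pow_ne_zero 2 hμ0)) hμ1
    rcases hPT L Q K i c _ _ (by rw [hix]; exact hxc) (by rw [hiy]; exact hyc) hncc
      with h1 | ⟨f, hf, hf0, hfv⟩
    · exact Or.inl h1
    · right
      obtain ⟨v, hv, -⟩ := hPL Q f hf
      have hnd : ¬ f ∣ (X ^ 2 - C (X ^ 3 + C A * X + C B)) := by
        rintro ⟨u, hu'⟩
        apply hfne
        rw [hu', map_mul, hf0, zero_mul]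
      obtain ⟨h7, h8⟩ := H1 f v hf hnd hv
      exact ⟨v, h7, h8, hfv v hv⟩

/-- The row P2N, for all cubics in Weierstrass form (also the singular ones). -/
theorem p2n_all (hPT : ST_PT) (hPL : ST_PLACE) (L : Type) [Field L] [Algebra ℂ L] (N : ℕ)
    (ω : Bracket L) (x : Fin (N + 1) → L) (Q Q' : Coord L) (A B : ℂ)
    (hx' : Q'.x = Q.x / Q.y) (hy' : Q'.y = Q.y⁻¹)
    (H1 : ∀ (g : ℂ[X][X]) (v : DVal L), Irreducible g →
      ¬ g ∣ (X ^ 2 - C (X ^ 3 + C A * X + C B)) → IsPlaceOf Q g v → CYp ω x v)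
    (H2 : ∀ v : DVal L, IsPlaceOf Q' X v → CYp ω x v) : Fam ω x := by
  have hchar : CharZero (AlgebraicClosure (RatFunc ℂ)) := algebraRat.charZero _
  obtain ⟨w₀, hw₀⟩ := IsAlgClosed.exists_pow_nat_eq
    ((algebraMap (RatFunc ℂ) (AlgebraicClosure (RatFunc ℂ)) RatFunc.X) ^ 3 +
      algebraMap ℂ (AlgebraicClosure (RatFunc ℂ)) A *
        (algebraMap (RatFunc ℂ) (AlgebraicClosure (RatFunc ℂ)) RatFunc.X) +
      algebraMap ℂ (AlgebraicClosure (RatFunc ℂ)) B) (n := 2) (by norm_num)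
  exact p2n_gen _ w₀ trans_t A B hw₀ hPT L N ω x Q Q' (fun Q f => hPL L Q f) hx' hy' H1 H2

theorem p2n (hPT : ST_PT) (hPL : ST_PLACE) : ST_P2N := by
  intro L _ _ N ω x Q Q' A B f hx' hy' _ hf H1 H2
  subst hf
  exact p2n_all hPT hPL L N ω x Q Q' A B hx' hy' H1 H2

end

end LCY.H36
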