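import Pool.Agent.Helper51.LCY.G1
import Pool.Agent.Helper81.LCY.Adic
import Pool.Agent.Helper11.LCY.State
import Pool.Agent.Helper26.LC.FamStmts3

/-! Pieces of the row T0PT of MP_f7e214_ag: the bracket of the Weierstrass coordinates, and the
cuspidal cubic does not occur. -/

open Polynomial

namespace LCY.H36

noncomputable section

open LCY

variable {L : Type} [Field L] [Algebra ℂ L]

/-- A function without poles along the curves of the affine plane is a polynomial. -/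
theorem poly_of_vals (P : Coord L) (z : L) (hz : z ≠ 0)
    (hval : ∀ p (hp : Prime p), 0 ≤ (P.pval p hp).v z) : ∃ f : ℂ[X][X], ev P.x P.y f = z := by
  obtain ⟨A, B, hB, hAB⟩ := P.surj z
  have key : ∀ B : ℂ[X][X], B ≠ 0 → ∀ A : ℂ[X][X],
      z = ev P.x P.y A / ev P.x P.y B → ∃ f : ℂ[X][X], ev P.x P.y f = z := by
    intro B
    induction B using UniqueFactorizationMonoid.induction_on_prime with
    | h₁ => intro h; exact absurd rfl h
    | h₂ u hu =>
      intro _ A hA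
      obtain ⟨w, hw⟩ := hu.exists_right_inv
      refine ⟨A * w, ?_⟩
      have h1 : ev P.x P.y u * ev P.x P.y w = 1 := by rw [← map_mul, hw, map_one]
      have h2 : ev P.x P.y u ≠ 0 := left_ne_zero_of_mul_eq_one h1
      rw [hA, map_mul, eq_div_iff h2, mul_assoc, mul_comm (ev P.x P.y w), h1, mul_one]
    | h₃ B p hBne hp ih =>
      intro _ A hA
      have hAne : A ≠ 0 := by
        rintro rfl
        rw [map_zero, zero_div] at hA
        exact hz hA
      have hd : p ∣ A := by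
        by_contra hd
        have h1 := hval p hp
        rw [hA, DVal.map_div _ (P.ne hAne) (P.ne (mul_ne_zero hp.ne_zero hBne)),
          P.pval_ev hp hAne, P.pval_ev hp (mul_ne_zero hp.ne_zero hBne),
          multiplicity_eq_zero.2 hd, H62.mult_mul hp hp.ne_zero hBne, multiplicity_self] at h1
        push_cast at h1
        omega
      obtain ⟨A', rfl⟩ := hd
      refine ih hBne A' ?_
      rw [hA, map_mul, map_mul, mul_div_mul_left _ _ (P.ne hp.ne_zero)]
  exact key B hB A hAB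

/-- A function without zeros and poles along the curves of the affine plane is constant. -/
theorem const_of_vals (P : Coord L) (z : L) (hz : z ≠ 0)
    (hval : ∀ p (hp : Prime p), (P.pval p hp).v z = 0) :
    ∃ c : ℂ, c ≠ 0 ∧ z = algebraMap ℂ L c := by
  obtain ⟨f, hf⟩ := poly_of_vals P z hz fun p hp => (hval p hp).ge
  obtain ⟨g, hg⟩ := poly_of_vals P z⁻¹ (inv_ne_zero hz) fun p hp => by
    rw [DVal.map_inv _ hz, hval p hp]
    exact le_rfl
  have h1 : f * g = 1 := by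
    have h2 : ev P.x P.y (f * g - 1) = 0 := by
      rw [map_sub, map_mul, hf, hg, map_one, mul_inv_cancel₀ hz, sub_self]
    exact sub_eq_zero.1 (P.inj _ h2)
  obtain ⟨c, hc, hfc⟩ := H81.unit_eq (IsUnit.of_mul_eq_one _ h1)
  exact ⟨c, hc, by rw [← hf, hfc, ev_CC]⟩

theorem ev_wei (S : Coord L) (A B : ℂ) :
    ev S.x S.y (X ^ 2 - C (X ^ 3 + C A * X + C B) : ℂ[X][X]) = weiF S A B := by
  rw [map_sub, map_pow, ev_X, ev_C]
  simp only [map_add, map_mul, map_pow, aeval_X, aeval_C, weiF]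
  ring

/-- The bracket of the coordinates. -/
theorem t0br_aux (w : Bracket L) (hWP : ∀ v k, w.Wt v k → WtProp w v k) (S : Coord L) (A B : ℂ)
    (D : DVal L) (hD : IsAdic S (X ^ 2 - C (X ^ 3 + C A * X + C B) : ℂ[X][X]) D)
    (hm : w.Wt D (-1))
    (h0 : ∀ (g : ℂ[X][X]) (v : DVal L), IsAdic S g v → ¬ v.Same D → w.Wt v 0) :
    ∃ c : ℂ, c ≠ 0 ∧ w.br S.x S.y = algebraMap ℂ L c * weiF S A B := by
  set F : ℂ[X][X] := X ^ 2 - C (X ^ 3 + C A * X + C B) with hF
  have hF0 : F ≠ 0 := hD.1.ne_zero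
  have hw0 : weiF S A B ≠ 0 := by
    rw [← ev_wei]
    exact S.ne hF0
  have hb0 := S.br_ne w
  obtain ⟨c, hc, hz⟩ := const_of_vals S (w.br S.x S.y / weiF S A B) (div_ne_zero hb0 hw0) (by
    intro p hp
    rw [DVal.map_div _ hb0 hw0]
    have had : IsAdic S p (S.pval p hp) := H81.adic_pval S hp
    by_cases hs : (S.pval p hp).Same D
    · have h1 : w.Wt (S.pval p hp) (-1) := by
        obtain ⟨t, π, a1, a2, a3, a4, a5⟩ := hm
        refine ⟨t, π, fun R hR => ⟨(a1 R hR).1, ?_⟩, a2, ?_, a4, ?_⟩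
        · rw [hs _ (a1 R hR).1]; exact (a1 R hR).2
        · rw [hs _ a2]; exact a3
        · rw [hs _ a4]; exact a5
      rw [wt_pval S hp (hWP _ _ h1), hs _ hw0, ← ev_wei, H81.IsAdic.self hD]
      norm_num
    · have h1 := h0 p _ had hs
      have h2 : ¬ p ∣ F := by
        intro hd
        apply hs
        have h3 : Associated p F := hp.irreducible.associated_of_dvd hD.1 hd
        exact H81.IsAdic.same (H81.IsAdic.of_associated had h3) hD
      rw [wt_pval S hp (hWP _ _ h1), ← ev_wei, H81.IsAdic.zero_of had h2]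
      norm_num)
  exact ⟨c, hc, by rw [← hz, div_mul_cancel₀ _ hw0]⟩

theorem t0br {N : ℕ} (w : Bracket L) (x : Fin (N + 1) → L) (hA : Adm w x) (S : Coord L)
    (A B : ℂ) (D : DVal L)
    (hD : IsAdic S (X ^ 2 - C (X ^ 3 + C A * X + C B) : ℂ[X][X]) D) (hm : w.Wt D (-1))
    (h0 : ∀ (g : ℂ[X][X]) (v : DVal L), IsAdic S g v → ¬ v.Same D → w.Wt v 0) :
    ∃ c : ℂ, c ≠ 0 ∧ w.br S.x S.y = algebraMap ℂ L c * weiF S A B :=
  t0br_aux w (fun v _ hk => wtProp hA.trdeg hA.fg w v hk) S A B D hD hm h0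

/-- The cuspidal cubic does not occur. -/
theorem t0cusp {N : ℕ} (w : Bracket L) (x : Fin (N + 1) → L) (hA : Adm w x) (S : Coord L)
    (c : ℂ) (hc : c ≠ 0) (hbr : w.br S.x S.y = algebraMap ℂ L c * weiF S 0 0) : False := by
  obtain ⟨Q, hQx, hQy⟩ := S.tor (-3) 2 (-1) 1 (by norm_num)
  have hx := S.x_ne
  have hy := S.y_ne
  have hcL : algebraMap ℂ L c ≠ 0 := by simpa using hc
  have hQx' : Q.x * (S.x * (S.x * S.x)) = S.y * S.y := by
    rw [hQx]
    field_simp
  have hQy' : Q.y = S.y / S.x := by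
    rw [hQy]
    field_simp
  set b := w.br S.x S.y with hb
  have e1 : w.br S.x Q.y = S.x⁻¹ * b := by
    rw [hQy', w.br_div hx]
  have e2 : w.br S.y Q.y = S.y * (S.x⁻¹ * S.x⁻¹) * b := by
    have h1 : w.br Q.y S.y = - (S.y * (S.x⁻¹ * S.x⁻¹) * b) := by
      rw [hQy', div_eq_mul_inv, w.mul_left, w.alt, w.inv_left hx]
      ring
    rw [w.skew, h1]
    ring
  have e3 : w.br Q.x Q.y = - (S.y ^ 2 / S.x ^ 5 * b) := by
    have h1 : w.br (Q.x * (S.x * (S.x * S.x))) Q.y = w.br (S.y * S.y) Q.y := by rw [hQx']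
    rw [w.mul_left, w.mul_left S.x (S.x * S.x), w.mul_left S.x S.x, w.mul_left S.y S.y, e1,
      e2] at h1
    have h2 : S.x * (S.x * S.x) * w.br Q.x Q.y =
        2 * (S.y * (S.y * (S.x⁻¹ * S.x⁻¹) * b)) - Q.x * (3 * (S.x * S.x) * (S.x⁻¹ * b)) := by
      linear_combination h1
    have h3 : Q.x = S.y * S.y / (S.x * (S.x * S.x)) := by
      rw [← hQx']
      field_simp
    have h4 : w.br Q.x Q.y = (S.x * (S.x * S.x))⁻¹ *
        (2 * (S.y * (S.y * (S.x⁻¹ * S.x⁻¹) * b)) -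
          S.y * S.y / (S.x * (S.x * S.x)) * (3 * (S.x * S.x) * (S.x⁻¹ * b))) := by
      rw [← h3, ← h2]
      field_simp
    rw [h4]
    field_simp
    ring
  have e4 : w.br Q.x Q.y = algebraMap ℂ L (-c) * (Q.y ^ 2 * (Q.x - 1)) := by
    rw [e3, hbr, weiF, hQy']
    have h3 : Q.x = S.y * S.y / (S.x * (S.x * S.x)) := by
      rw [← hQx']
      field_simp
    rw [h3, map_neg, map_zero]
    field_simp
    ring
  have hp : Prime (X : ℂ[X][X]) := prime_X
  obtain ⟨k, hk⟩ := H73.exists_wt hA.trdeg hA.fg w (Q.pval X hp)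
  have h1 := wt_pval Q hp (wtProp hA.trdeg hA.fg w _ hk)
  have had : IsAdic Q X (Q.pval X hp) := H81.adic_pval Q hp
  have hvy : (Q.pval X hp).v Q.y = 1 := by
    have := H81.IsAdic.self had
    rwa [ev_X] at this
  have hnd : ¬ (X : ℂ[X][X]) ∣ C (X - C 1) := by
    rw [X_dvd_iff, coeff_C_zero]
    exact X_sub_C_ne_zero 1
  have hvx : (Q.pval X hp).v (Q.x - 1) = 0 := by
    have := H81.IsAdic.zero_of had hnd
    rw [ev_C, map_sub, aeval_X, aeval_C, map_one] at this
    exact this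
  have hx1 : Q.x - 1 ≠ 0 := by
    have h5 : ev Q.x Q.y (C (X - C 1)) ≠ 0 := Q.ne (by
      rw [Ne, C_eq_zero]
      exact X_sub_C_ne_zero 1)
    rw [ev_C, map_sub, aeval_X, aeval_C, map_one] at h5
    exact h5
  rw [e4, DVal.map_const_mul _ (neg_ne_zero.2 hc)
    (mul_ne_zero (pow_ne_zero 2 Q.y_ne) hx1), DVal.map_mul _ _ _ (pow_ne_zero 2 Q.y_ne) hx1,
    DVal.map_pow _ Q.y_ne, hvy, hvx] at h1
  have h2 := hA.h1 _ _ hk
  push_cast at h1
  omega

end

end LCY.H36
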